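import Mathlib

namespace Pool.Agent.Results.MP_fa909a_co.LongProgressions

/-- `e11 n`: the number of (possibly overlapping) occurrences of the block `11` in the binary
expansion of `n`. -/
def e11 (n : ℕ) : ℕ :=
  ((Finset.range n).filter (fun i => n.testBit i = true ∧ n.testBit (i + 1) = true)).card

/-- The Rudin-Shapiro sequence `r n = e11 n mod 2`. -/
def rs (n : ℕ) : ℕ := e11 n % 2

/-- The first `l` terms `r n, r (n+d), ..., r (n+(l-1)d)` are all equal. -/
def Mono (n d l : ℕ) : Prop := ∀ j < l, rs (n + j * d) = rs n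

/-- `A_r(n,d)`: the largest number of terms of a monochromatic progression of difference `d`
starting at `n` (a supremum in `ℕ∞`). -/
noncomputable def lenAt (n d : ℕ) : ℕ∞ := ⨆ (l : ℕ) (_ : Mono n d l), (l : ℕ∞)

/-- `A_r(d) = sup_n A_r(n,d)`. -/
noncomputable def A (d : ℕ) : ℕ∞ := ⨆ n : ℕ, lenAt n d

/-! ### basic recursion -/

/-- Boolean version of the sequence -/
def b (n : ℕ) : Bool := decide (rs n = 1)

theorem rs_lt (n : ℕ) : rs n < 2 := Nat.mod_lt _ (by norm_num)

theorem rs_eq_iff (m n : ℕ) : rs m = rs n ↔ b m = b n := by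
  have h1 := rs_lt m
  have h2 := rs_lt n
  unfold b
  constructor
  · intro h; rw [h]
  · intro h
    rw [decide_eq_decide] at h
    omega

theorem filt_eq (n N : ℕ) (h : n ≤ N) :
    (Finset.range N).filter (fun i => n.testBit i = true ∧ n.testBit (i + 1) = true) =
    (Finset.range n).filter (fun i => n.testBit i = true ∧ n.testBit (i + 1) = true) := by
  ext i
  simp only [Finset.mem_filter, Finset.mem_range]
  constructor
  · rintro ⟨_, h1, h2⟩
    refine ⟨?_, h1, h2⟩
    have := Nat.ge_two_pow_of_testBit h1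
    exact lt_of_lt_of_le (Nat.lt_two_pow_self) this
  · rintro ⟨h0, h1, h2⟩
    exact ⟨by omega, h1, h2⟩

theorem e11_rec (n : ℕ) (c : Bool) : e11 (Nat.bit c n) = e11 n + (if c = true ∧ n.testBit 0 = true then 1 else 0) := by
  unfold e11
  have hle : Nat.bit c n ≤ 2 * n + 1 := by
    cases c <;> simp [Nat.bit]
  rw [← filt_eq (Nat.bit c n) (2 * n + 1) hle, ← filt_eq n (2 * n) (by omega)]
  rw [Finset.range_eq_Ico, Finset.range_eq_Ico]
  have : Finset.Ico 0 (2 * n + 1) = insert 0 (Finset.image (fun i => i + 1) (Finset.Ico 0 (2 * n))) := by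
    ext i
    simp only [Finset.mem_Ico, Finset.mem_insert, Finset.mem_image]
    constructor
    · rintro ⟨_, h⟩
      rcases Nat.eq_zero_or_pos i with h0 | h0
      · left; exact h0
      · right; exact ⟨i - 1, by omega, by omega⟩
    · rintro (h | ⟨a, ha, h⟩)
      · omega
      · omega
  rw [this, Finset.filter_insert, Finset.filter_image]
  have key : (Finset.filter (fun i => (Nat.bit c n).testBit (i + 1) = true ∧ (Nat.bit c n).testBit (i + 1 + 1) = true) (Finset.Ico 0 (2 * n))) =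
      (Finset.filter (fun i => n.testBit i = true ∧ n.testBit (i + 1) = true) (Finset.Ico 0 (2 * n))) := by
    apply Finset.filter_congr
    intro i _
    rw [Nat.testBit_bit_succ, Nat.testBit_bit_succ]
  rw [key]
  have hinj : Function.Injective (fun i : ℕ => i + 1) := fun a b h => by simpa using h
  split_ifs with h1 h2 h2
  · rw [Finset.card_insert_of_notMem, Finset.card_image_of_injective _ hinj]
    simp
  · exfalso; apply h2
    rw [Nat.testBit_bit_zero, Nat.testBit_bit_succ] at h1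
    exact h1
  · exfalso; apply h1
    rw [Nat.testBit_bit_zero, Nat.testBit_bit_succ]
    exact h2
  · rw [Finset.card_image_of_injective _ hinj, add_zero]

theorem b_bit (n : ℕ) (c : Bool) : b (Nat.bit c n) = xor (b n) (c && n.testBit 0) := by
  unfold b rs
  rw [e11_rec]
  have h := Nat.mod_two_eq_zero_or_one (e11 n)
  cases hc : (c && n.testBit 0)
  · have : ¬ (c = true ∧ n.testBit 0 = true) := by
      rintro ⟨h1, h2⟩
      rw [h1, h2] at hc; simp at hc
    rw [if_neg this]; simp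
  · have : (c = true ∧ n.testBit 0 = true) := by
      simpa using hc
    rw [if_pos this]
    rcases h with h | h
    · have h2 : (e11 n + 1) % 2 = 1 := by omega
      simp [h, h2]
    · have h2 : (e11 n + 1) % 2 = 0 := by omega
      simp [h, h2]

theorem b_two_mul (n : ℕ) : b (2 * n) = b n := by
  have := b_bit n false
  simpa [Nat.bit] using this

theorem b_two_mul_add_one (n : ℕ) : b (2 * n + 1) = xor (b n) (n.testBit 0) := by
  have := b_bit n true
  simpa [Nat.bit] using this

theorem b_zero : b 0 = false := by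
  unfold b rs e11; simp

theorem testBit_zero_add_even (a c : ℕ) : (2 * a + c).testBit 0 = c.testBit 0 := by
  simp only [Nat.testBit_zero]
  congr 1
  rw [Nat.mul_add_mod]

/-- decomposition at a power of two -/
theorem b_decomp (M u v : ℕ) (hv : v < 2 ^ (M + 1)) :
    b (2 ^ (M + 1) * u + v) = xor (xor (b u) (b v)) (u.testBit 0 && decide (2 ^ M ≤ v)) := by
  induction M generalizing v with
  | zero =>
    have hv' : v = 0 ∨ v = 1 := by simp at hv; omega
    have h1 : b 1 = false := by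
      have := b_two_mul_add_one 0
      simpa [b_zero] using this
    rcases hv' with rfl | rfl
    · simp [b_two_mul, b_zero]
    · have := b_two_mul_add_one u
      simp [this, h1]
  | succ M ih =>
    obtain ⟨w, c, rfl⟩ : ∃ w c, v = Nat.bit c w := ⟨v / 2, v.testBit 0, by
      rw [Nat.testBit_zero]
      rcases Nat.mod_two_eq_zero_or_one v with h | h <;> simp [Nat.bit, h] <;> omega⟩
    have hw : w < 2 ^ (M + 1) := by
      have : 2 ^ (M + 1 + 1) = 2 * 2 ^ (M + 1) := by ring
      rw [this] at hv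
      cases c <;> simp [Nat.bit] at hv <;> omega
    have e : 2 ^ (M + 1 + 1) * u + Nat.bit c w = Nat.bit c (2 ^ (M + 1) * u + w) := by
      have : 2 ^ (M + 1 + 1) = 2 * 2 ^ (M + 1) := by ring
      rw [this]
      cases c <;> simp [Nat.bit] <;> ring
    rw [e, b_bit, b_bit, ih w hw]
    have e2 : (2 ^ (M + 1) * u + w).testBit 0 = w.testBit 0 := by
      have : 2 ^ (M + 1) * u + w = 2 * (2 ^ M * u) + w := by ring
      rw [this, testBit_zero_add_even]
    have e3 : decide (2 ^ (M + 1) ≤ Nat.bit c w) = decide (2 ^ M ≤ w) := by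
      have : 2 ^ (M + 1) = 2 * 2 ^ M := by ring
      rw [this, decide_eq_decide]
      cases c <;> simp [Nat.bit] <;> omega
    rw [e2, e3]
    cases b u <;> cases b w <;> cases (c && w.testBit 0) <;> cases (u.testBit 0 && decide (2 ^ M ≤ w)) <;> rfl

/-! ### bit masks -/

/-- cyclic rotation of an `N`-bit mask: bit `g` of the result is bit `(g+s) % N` of `B` -/
def rot (N s B : ℕ) : ℕ := (B >>> s ||| B <<< (N - s)) % 2 ^ N

theorem rot_lt (N s B : ℕ) : rot N s B < 2 ^ N := Nat.mod_lt _ (by positivity)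

theorem testBit_rot {N s B g : ℕ} (hB : B < 2 ^ N) (hs : s ≤ N) (hg : g < N) :
    (rot N s B).testBit g = B.testBit ((g + s) % N) := by
  unfold rot
  rw [Nat.testBit_mod_two_pow, Nat.testBit_or, Nat.testBit_shiftRight, Nat.testBit_shiftLeft]
  have h1 : decide (g < N) = true := by simpa using hg
  rw [h1, Bool.true_and]
  by_cases h : g + s < N
  · rw [Nat.mod_eq_of_lt h]
    have h2 : decide (g ≥ N - s) = false := by
      rw [decide_eq_false_iff_not]; omega
    rw [h2, Bool.false_and, Bool.or_false, Nat.add_comm]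
  · have h2 : (g + s) % N = g - (N - s) := by
      rw [Nat.mod_eq_sub_mod (by omega), Nat.mod_eq_of_lt (by omega)]; omega
    have h3 : decide (g ≥ N - s) = true := by
      rw [decide_eq_true_iff]; omega
    have h4 : B.testBit (s + g) = false := by
      apply Nat.testBit_lt_two_pow
      exact lt_of_lt_of_le hB (Nat.pow_le_pow_right (by norm_num) (by omega))
    rw [h2, h3, h4, Bool.true_and, Bool.false_or]

/-- `orRot N d j Z`: bit `g` is set iff one of the bits `(g + v d) % N`, `v < 2^j` of `Z` is. -/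
def orRot (N d : ℕ) : ℕ → ℕ → ℕ
  | 0, Z => Z
  | j + 1, Z => orRot N d j Z ||| rot N ((d * 2 ^ j) % N) (orRot N d j Z)

theorem orRot_lt (N d j Z : ℕ) (hZ : Z < 2 ^ N) : orRot N d j Z < 2 ^ N := by
  induction j with
  | zero => exact hZ
  | succ j ih => exact Nat.or_lt_two_pow ih (rot_lt _ _ _)

theorem testBit_orRot {N d j Z g : ℕ} (hZ : Z < 2 ^ N) (hg : g < N)
    (h : (orRot N d j Z).testBit g = true) : ∃ v < 2 ^ j, Z.testBit ((g + v * d) % N) = true := by
  induction j generalizing g with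
  | zero =>
    refine ⟨0, by norm_num, ?_⟩
    simpa [orRot, Nat.mod_eq_of_lt hg] using h
  | succ j ih =>
    have hN : 0 < N := by omega
    rw [orRot, Nat.testBit_or, testBit_rot (orRot_lt _ _ _ _ hZ) (Nat.mod_lt _ hN).le hg, Bool.or_eq_true] at h
    rcases h with h | h
    · obtain ⟨v, hv, h2⟩ := ih hg h
      exact ⟨v, lt_of_lt_of_le hv (Nat.pow_le_pow_right (by norm_num) (by omega)), h2⟩
    · obtain ⟨v, hv, h2⟩ := ih (Nat.mod_lt _ hN) h
      refine ⟨2 ^ j + v, by rw [pow_succ]; omega, ?_⟩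
      rw [← h2]
      congr 1
      have e : g + d * 2 ^ j % N + v * d = (g + v * d) + d * 2 ^ j % N := by ring
      rw [Nat.mod_add_mod, e, Nat.add_mod_mod]
      congr 1
      ring

/-- mask of the upper half of `[0, 2^k)` (empty for `k = 0`) -/
def upm : ℕ → ℕ
  | 0 => 0
  | j + 1 => (2 ^ (2 ^ j) - 1) <<< 2 ^ j

/-- table of the sequence: bit `n` of `Rt k` is `b n`, for `n < 2^k` -/
def Rt : ℕ → ℕ
  | 0 => 0
  | k + 1 => Rt k ||| ((Rt k ^^^ upm k) <<< 2 ^ k)

theorem Rt_lt (k : ℕ) : Rt k < 2 ^ 2 ^ k := by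
  induction k with
  | zero => simp [Rt]
  | succ k ih =>
    have e : 2 ^ 2 ^ (k + 1) = 2 ^ 2 ^ k * 2 ^ 2 ^ k := by
      rw [← pow_add]; congr 1; rw [pow_succ]; omega
    apply Nat.or_lt_two_pow
    · exact lt_of_lt_of_le ih (Nat.pow_le_pow_right (by norm_num) (Nat.pow_le_pow_right (by norm_num) (by omega)))
    · rw [Nat.shiftLeft_eq, e]
      apply Nat.mul_lt_mul_of_pos_right _ (by positivity)
      apply Nat.xor_lt_two_pow ih
      cases k with
      | zero => simp [upm]
      | succ j =>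
        simp only [upm, Nat.shiftLeft_eq]
        have e' : 2 ^ 2 ^ (j + 1) = 2 ^ 2 ^ j * 2 ^ 2 ^ j := by
          rw [← pow_add]; congr 1; rw [pow_succ]; omega
        rw [e']
        apply Nat.mul_lt_mul_of_pos_right _ (by positivity)
        have : 0 < 2 ^ 2 ^ j := by positivity
        omega

theorem testBit_Rt (k n : ℕ) (hn : n < 2 ^ k) : (Rt k).testBit n = b n := by
  induction k generalizing n with
  | zero =>
    have : n = 0 := by simpa using hn
    subst this
    simp [Rt, b_zero]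
  | succ k ih =>
    rw [Rt, Nat.testBit_or, Nat.testBit_shiftLeft]
    by_cases h : n < 2 ^ k
    · have : decide (n ≥ 2 ^ k) = false := by rw [decide_eq_false_iff_not]; omega
      rw [this, Bool.false_and, Bool.or_false, ih n h]
    · have h1 : decide (n ≥ 2 ^ k) = true := by rw [decide_eq_true_iff]; omega
      have h2 : (Rt k).testBit n = false := by
        apply Nat.testBit_lt_two_pow
        exact lt_of_lt_of_le (Rt_lt k) (Nat.pow_le_pow_right (by norm_num) (by omega))
      rw [h1, h2, Bool.true_and, Bool.false_or, Nat.testBit_xor]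
      have hlt : n - 2 ^ k < 2 ^ k := by rw [pow_succ] at hn; omega
      rw [ih _ hlt]
      cases k with
      | zero =>
        have : n = 1 := by simp at h hn; omega
        subst this
        have h1 := b_two_mul_add_one 0
        simp [b_zero, upm] at h1 ⊢
        exact h1
      | succ j =>
        have e : n = 2 ^ (j + 1) * 1 + (n - 2 ^ (j + 1)) := by omega
        conv_rhs => rw [e, b_decomp j 1 _ hlt]
        have hb1 : b 1 = false := by
          have h1 := b_two_mul_add_one 0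
          simpa [b_zero] using h1
        rw [hb1, Bool.false_xor]
        congr 1
        simp only [upm, Nat.testBit_shiftLeft, Nat.testBit_two_pow_sub_one]
        have : Nat.testBit 1 0 = true := rfl
        rw [this, Bool.true_and]
        by_cases h3 : 2 ^ j ≤ n - 2 ^ (j + 1)
        · have : n - 2 ^ (j + 1) - 2 ^ j < 2 ^ j := by rw [pow_succ] at hlt; omega
          simp [h3, this]
        · simp [h3]

/-- mask of the `a < 2H` with `a % H + d < H` -/
def Um (H d : ℕ) : ℕ := (2 ^ (H - d) - 1) ||| ((2 ^ (H - d) - 1) <<< H)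

theorem Um_lt (H d : ℕ) : Um H d < 2 ^ (2 * H) := by
  unfold Um
  have e : 2 ^ (2 * H) = 2 ^ H * 2 ^ H := by rw [← pow_add]; congr 1; omega
  have h1 : 2 ^ (H - d) - 1 < 2 ^ H := by
    have : 0 < 2 ^ (H - d) := by positivity
    have : 2 ^ (H - d) ≤ 2 ^ H := Nat.pow_le_pow_right (by norm_num) (by omega)
    omega
  apply Nat.or_lt_two_pow
  · exact lt_of_lt_of_le h1 (Nat.pow_le_pow_right (by norm_num) (by omega))
  · rw [Nat.shiftLeft_eq, e]
    exact Nat.mul_lt_mul_of_pos_right h1 (by positivity)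

theorem testBit_Um {H d a : ℕ} (ha : a < 2 * H) : (Um H d).testBit a = decide (a % H + d < H) := by
  unfold Um
  simp only [Nat.testBit_or, Nat.testBit_shiftLeft, Nat.testBit_two_pow_sub_one]
  by_cases h : a < H
  · rw [Nat.mod_eq_of_lt h]
    have : decide (a ≥ H) = false := by rw [decide_eq_false_iff_not]; omega
    rw [this, Bool.false_and, Bool.or_false, decide_eq_decide]
    omega
  · have e : a % H = a - H := by
      rw [Nat.mod_eq_sub_mod (by omega), Nat.mod_eq_of_lt (by omega)]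
    rw [e]
    have h1 : decide (a ≥ H) = true := by rw [decide_eq_true_iff]; omega
    have h2 : decide (a < H - d) = false := by rw [decide_eq_false_iff_not]; omega
    rw [h1, h2, Bool.false_or, Bool.true_and, decide_eq_decide]
    omega

/-! ### locality -/

theorem local_b (h x d : ℕ) (hd : x % 2 ^ (h + 1) + d < 2 ^ (h + 1)) :
    xor (b (x + d)) (b x) =
      xor (b (x % 2 ^ (h + 2) + d)) (b (x % 2 ^ (h + 2))) := by
  set H := 2 ^ (h + 1) with hH
  have hHpos : 0 < H := by positivity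
  have e2 : 2 ^ (h + 2) = H * 2 := by rw [hH, ← pow_succ]
  set q := x / H with hq
  set c := x % H with hc
  have hx : x = H * q + c := (Nat.div_add_mod x H).symm
  have hclt : c < H := Nat.mod_lt _ hHpos
  have ha : x % 2 ^ (h + 2) = H * (q % 2) + c := by
    rw [e2, Nat.mod_mul, ← hq, ← hc]; ring
  rw [ha]
  have h1 : b (x + d) = xor (xor (b q) (b (c + d))) (q.testBit 0 && decide (2 ^ h ≤ c + d)) := by
    rw [hx, add_assoc]; exact b_decomp h q (c + d) hd
  have h2 : b x = xor (xor (b q) (b c)) (q.testBit 0 && decide (2 ^ h ≤ c)) := by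
    conv_lhs => rw [hx]
    exact b_decomp h q c hclt
  have h3 : b (H * (q % 2) + c + d) = xor (xor (b (q % 2)) (b (c + d))) ((q % 2).testBit 0 && decide (2 ^ h ≤ c + d)) := by
    rw [add_assoc]; exact b_decomp h (q % 2) (c + d) hd
  have h4 : b (H * (q % 2) + c) = xor (xor (b (q % 2)) (b c)) ((q % 2).testBit 0 && decide (2 ^ h ≤ c)) :=
    b_decomp h (q % 2) c hclt
  have h5 : (q % 2).testBit 0 = q.testBit 0 := by simp [Nat.testBit_zero]
  rw [h1, h2, h3, h4, h5]
  cases b q <;> cases b (q % 2) <;> cases b c <;> cases b (c + d) <;>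
    cases (q.testBit 0 && decide (2 ^ h ≤ c + d)) <;> cases (q.testBit 0 && decide (2 ^ h ≤ c)) <;> rfl

/-! ### direct check for a given difference -/

/-- mask of the residues `a` mod `2^(h+2)` at which `b (x+d) ≠ b x` for all `x ≡ a` -/
def Zm (h d : ℕ) : ℕ := (Rt (h + 3) ^^^ (Rt (h + 3) >>> d)) &&& Um (2 ^ (h + 1)) d

theorem Zm_lt (h d : ℕ) : Zm h d < 2 ^ 2 ^ (h + 2) := by
  unfold Zm
  have := Um_lt (2 ^ (h + 1)) d
  have e : 2 * 2 ^ (h + 1) = 2 ^ (h + 2) := by rw [pow_succ 2 (h + 1)]; ring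
  rw [e] at this
  exact Nat.and_lt_two_pow _ this

/-! ### the finite check modulo 64 -/

/-- mask of the odd residues mod 64 -/
def oddm : ℕ := 0xAAAAAAAAAAAAAAAA

theorem testBit_oddm (a : ℕ) (ha : a < 64) : oddm.testBit a = a.testBit 0 := by
  revert a; decide

/-- the value `b a + b (a+δ) + η a` as a mask -/
def Vm (δ : ℕ) (η : Bool) : ℕ := (Rt 7 ^^^ (Rt 7 >>> δ)) ^^^ (if η then oddm else 0)

theorem testBit_Vm {δ a : ℕ} (hδ : δ ≤ 32) (η : Bool) (ha : a < 64) :
    (Vm δ η).testBit a = ((b a ^^ b (a + δ)) ^^ (η && a.testBit 0)) := by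
  unfold Vm
  rw [Nat.testBit_xor, Nat.testBit_xor, Nat.testBit_shiftRight, testBit_Rt 7 a (by omega),
    testBit_Rt 7 (δ + a) (by omega), Nat.add_comm δ a]
  congr 1
  cases η
  · simp
  · simp only [if_true, Bool.true_and]; exact testBit_oddm a ha

/-- mask of the residues which violate the value `κ` -/
def Xm (δ : ℕ) (η κ : Bool) : ℕ := (if κ then Vm δ η ^^^ (2 ^ 64 - 1) else Vm δ η) &&& Um 32 δ

theorem Xm_lt (δ : ℕ) (η κ : Bool) : Xm δ η κ < 2 ^ 64 :=
  Nat.and_lt_two_pow _ (Um_lt 32 δ)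

theorem testBit_Xm {δ a : ℕ} (hδ : δ ≤ 32) (η κ : Bool) (ha : a < 64)
    (h : (Xm δ η κ).testBit a = true) :
    a % 32 + δ < 32 ∧ ((b a ^^ b (a + δ)) ^^ (η && a.testBit 0)) = !κ := by
  unfold Xm at h
  rw [Nat.testBit_and, testBit_Um (by omega), Bool.and_eq_true, decide_eq_true_iff] at h
  refine ⟨h.2, ?_⟩
  have h1 := h.1
  cases κ
  · simp only [Bool.false_eq_true, if_false] at h1
    rw [testBit_Vm hδ η ha] at h1
    simpa using h1
  · simp only [if_true] at h1
    rw [Nat.testBit_xor, testBit_Vm hδ η ha, Nat.testBit_two_pow_sub_one] at h1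
    have : decide (a < 64) = true := by simpa using ha
    rw [this] at h1
    simpa using h1

/-- mask of the admissible starting residues of windows -/
def Gm (D δ : ℕ) (η κ : Bool) : ℕ := (2 ^ 64 - 1) ^^^ orRot 64 D 3 (Xm δ η κ)

theorem Gm_lt (D δ : ℕ) (η κ : Bool) : Gm D δ η κ < 2 ^ 64 :=
  Nat.xor_lt_two_pow (by norm_num) (orRot_lt _ _ _ _ (Xm_lt _ _ _))

theorem testBit_Gm {D δ g : ℕ} (hδ : δ ≤ 32) (η κ : Bool) (hg : g < 64)
    (h : ∀ v < 8, (g + v * D) % 64 % 32 + δ < 32 →
      ((b ((g + v * D) % 64) ^^ b ((g + v * D) % 64 + δ)) ^^ (η && ((g + v * D) % 64).testBit 0)) = κ) :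
    (Gm D δ η κ).testBit g = true := by
  unfold Gm
  rw [Nat.testBit_xor, Nat.testBit_two_pow_sub_one]
  have h1 : decide (g < 64) = true := by simpa using hg
  rw [h1, Bool.true_xor]
  by_contra hc
  rw [Bool.not_eq_true, Bool.not_eq_false'] at hc
  obtain ⟨v, hv, hx⟩ := testBit_orRot (Xm_lt _ _ _) hg hc
  obtain ⟨h2, h3⟩ := testBit_Xm hδ η κ (Nat.mod_lt _ (by norm_num)) hx
  have h4 := h v hv h2
  rw [h4] at h3
  cases κ <;> simp at h3

/-- the mask of pairs of windows -/
def Km (D δ₁ : ℕ) (η₁ : Bool) (δ₂ : ℕ) (η₂ κ₁ κ₂ : Bool) : ℕ :=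
  Gm D δ₁ η₁ κ₁ &&& (rot 64 δ₁ (Gm D δ₂ η₂ κ₂) ||| rot 64 ((δ₁ + (64 - D)) % 64) (Gm D δ₂ η₂ κ₂))

theorem Km_lt (D δ₁ : ℕ) (η₁ : Bool) (δ₂ : ℕ) (η₂ κ₁ κ₂ : Bool) :
    Km D δ₁ η₁ δ₂ η₂ κ₁ κ₂ < 2 ^ 64 :=
  Nat.and_lt_two_pow _ (Nat.or_lt_two_pow (rot_lt _ _ _) (rot_lt _ _ _))

/-- differences -/
def dif (K₁ K₂ : ℕ) : ℕ → ℕ
  | 0 => 0
  | n + 1 => if K₁.testBit n then rot 64 n K₂ ||| dif K₁ K₂ n else dif K₁ K₂ n

theorem testBit_dif {K₁ K₂ n g g' : ℕ} (hn : n ≤ 64) (hK : K₂ < 2 ^ 64) (hg : g < n) (hg' : g' < 64)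
    (h1 : K₁.testBit g = true) (h2 : K₂.testBit g' = true) :
    (dif K₁ K₂ n).testBit ((g' + (64 - g)) % 64) = true := by
  induction n with
  | zero => omega
  | succ n ih =>
    unfold dif
    rcases Nat.lt_succ_iff_lt_or_eq.mp hg with h | h
    · split_ifs
      · rw [Nat.testBit_or, ih (by omega) h, Bool.or_true]
      · exact ih (by omega) h
    · subst h
      rw [if_pos h1, Nat.testBit_or, testBit_rot hK (by omega) (Nat.mod_lt _ (by norm_num))]
      have : ((g' + (64 - g)) % 64 + g) % 64 = g' := by omega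
      rw [this, h2, Bool.true_or]

theorem dif_lt (K₁ K₂ n : ℕ) : dif K₁ K₂ n < 2 ^ 64 := by
  induction n with
  | zero => simp [dif]
  | succ n ih =>
    unfold dif
    split_ifs
    · exact Nat.or_lt_two_pow (rot_lt _ _ _) ih
    · exact ih

/-- close under adding `D` -/
def cl (D E : ℕ) : ℕ := E ||| rot 64 ((64 - D)) E

theorem testBit_cl {D E P g g' : ℕ} (hD : D < 64) (hE : E < 2 ^ 64) (hP : P < 64) (hg : g < 64) (hg' : g' < 64)
    (h : E.testBit ((g' + (64 - g)) % 64) = true)
    (hp : g' % 64 = (g + P) % 64 ∨ (g' + D) % 64 = (g + P) % 64) : (cl D E).testBit P = true := by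
  unfold cl
  rw [Nat.testBit_or, testBit_rot hE (by omega) hP, Bool.or_eq_true]
  rcases hp with hp | hp
  · left
    have : (g' + (64 - g)) % 64 = P := by omega
    rwa [this] at h
  · right
    have : (g' + (64 - g)) % 64 = (P + (64 - D)) % 64 := by omega
    rwa [this] at h

def chk (D δ₁ : ℕ) (η₁ : Bool) (δ₂ : ℕ) (η₂ : Bool) : Bool :=
  let K := Km D δ₁ η₁ δ₂ η₂
  (cl D (dif (K false false) (K false true) 64 ||| dif (K false true) (K false false) 64 |||
    dif (K true false) (K true true) 64 ||| dif (K true true) (K true false) 64)) &&&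
  (cl D (dif (K false false) (K true false) 64 ||| dif (K true false) (K false false) 64 |||
    dif (K false true) (K true true) 64 ||| dif (K true true) (K false true) 64)) == 0

theorem chk_sound {D δ₁ δ₂ : ℕ} {η₁ η₂ : Bool} (hD : D < 64) (hchk : chk D δ₁ η₁ δ₂ η₂ = true)
    {P g g' h h' : ℕ} (hP : P < 64) (hg : g < 64) (hg' : g' < 64) (hh : h < 64) (hh' : h' < 64)
    {κ₁ κ₂ μ₁ μ₂ : Bool}
    (k1 : (Km D δ₁ η₁ δ₂ η₂ κ₁ κ₂).testBit g = true) (k2 : (Km D δ₁ η₁ δ₂ η₂ κ₁ (!κ₂)).testBit g' = true)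
    (k3 : (Km D δ₁ η₁ δ₂ η₂ μ₁ μ₂).testBit h = true) (k4 : (Km D δ₁ η₁ δ₂ η₂ (!μ₁) μ₂).testBit h' = true)
    (hp1 : g' % 64 = (g + P) % 64 ∨ (g' + D) % 64 = (g + P) % 64)
    (hp2 : h' % 64 = (h + P) % 64 ∨ (h' + D) % 64 = (h + P) % 64) : False := by
  unfold chk at hchk
  simp only [beq_iff_eq] at hchk
  have hz := congrArg (fun x => Nat.testBit x P) hchk
  simp only [Nat.testBit_and, Nat.zero_testBit] at hz
  have d1 := testBit_dif (n := 64) le_rfl (Km_lt _ _ _ _ _ _ _) hg hg' k1 k2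
  have d2 := testBit_dif (n := 64) le_rfl (Km_lt _ _ _ _ _ _ _) hh hh' k3 k4
  rw [testBit_cl (g := g) (g' := g') hD ?_ hP hg hg' ?_ hp1,
    testBit_cl (g := h) (g' := h') hD ?_ hP hh hh' ?_ hp2] at hz
  · simp at hz
  · exact Nat.or_lt_two_pow (Nat.or_lt_two_pow (Nat.or_lt_two_pow (dif_lt _ _ _) (dif_lt _ _ _)) (dif_lt _ _ _)) (dif_lt _ _ _)
  · simp only [Nat.testBit_or]
    cases μ₁ <;> cases μ₂ <;> simp only [Bool.not_true, Bool.not_false] at d2 <;> simp [d2]
  · exact Nat.or_lt_two_pow (Nat.or_lt_two_pow (Nat.or_lt_two_pow (dif_lt _ _ _) (dif_lt _ _ _)) (dif_lt _ _ _)) (dif_lt _ _ _)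
  · simp only [Nat.testBit_or]
    cases κ₁ <;> cases κ₂ <;> simp only [Bool.not_true, Bool.not_false] at d1 <;> simp [d1]

def allLt (f : ℕ → Bool) : ℕ → Bool
  | 0 => true
  | n + 1 => f n && allLt f n

theorem allLt_spec {f : ℕ → Bool} {n : ℕ} (h : allLt f n = true) {i : ℕ} (hi : i < n) : f i = true := by
  induction n with
  | zero => omega
  | succ n ih =>
    rw [allLt, Bool.and_eq_true] at h
    rcases Nat.lt_succ_iff_lt_or_eq.mp hi with h1 | h1
    · exact ih h.2 h1
    · subst h1; exact h.1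

set_option maxRecDepth 100000 in
theorem fin_CN : allLt (fun j => allLt (fun i => chk (2*i+1) (8+j) true (8+j) false) 32) 9 = true := by decide +kernel
set_option maxRecDepth 100000 in
theorem fin_CWp : allLt (fun j => allLt (fun i => chk (2*i+1) (8+j) true (9+j) true) 32) 8 = true := by decide +kernel
set_option maxRecDepth 100000 in
theorem fin_CWm : allLt (fun j => allLt (fun i => chk (2*i+1) (9+j) true (8+j) true) 32) 8 = true := by decide +kernel
set_option maxRecDepth 100000 in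
theorem fin_NN : allLt (fun j => allLt (fun i => chk (2*i+3) (8+j) false (8+j) false && chk (61-2*i) (8+j) false (8+j) false) 3) 9 = true := by decide +kernel
set_option maxRecDepth 100000 in
theorem fin_NN1 : allLt (fun j => chk 1 (9+j) false (9+j) false && chk 63 (9+j) false (9+j) false) 7 = true := by decide +kernel
theorem fin_sp : Km 1 8 false 8 false true true = 0 := by decide +kernel

/-! ### windows -/

theorem win {n d K δ w w' i : ℕ} {s s' : Bool} (hδ : δ ≤ 32)
    (hmono : ∀ i < 8 * 2 ^ (K + 1), b (n + (i + 1) * d) = b (n + i * d))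
    (hi : i < 2 ^ (K + 1)) (hw : (n + i * d) % 2 ^ (K + 1) = w)
    (hstep : d + w = 2 ^ (K + 1) * δ + w') (hw' : w' < 2 ^ (K + 1))
    (hs : decide (2 ^ K ≤ w) = s) (hs' : decide (2 ^ K ≤ w') = s') :
    (Gm (d % 64) δ (s ^^ s') ((b w ^^ b w') ^^ (δ.testBit 0 && s'))).testBit
      ((n + i * d) / 2 ^ (K + 1) % 64) = true := by
  set W := 2 ^ (K + 1) with hW
  have hWpos : 0 < W := by positivity
  have hwlt : w < W := by rw [← hw]; exact Nat.mod_lt _ hWpos
  set A := (n + i * d) / W with hA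
  have hx : n + i * d = W * A + w := by rw [← hw]; exact (Nat.div_add_mod _ _).symm
  apply testBit_Gm hδ _ _ (Nat.mod_lt _ (by norm_num))
  intro v hv hlt
  have hm := hmono (i + W * v) (by nlinarith)
  have e1 : n + (i + W * v) * d = W * (A + v * d) + w := by
    have : n + (i + W * v) * d = (n + i * d) + W * (v * d) := by ring
    rw [this, hx]; ring
  have e2 : n + (i + W * v + 1) * d = W * (A + v * d + δ) + w' := by
    have : n + (i + W * v + 1) * d = (n + (i + W * v) * d) + d := by ring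
    rw [this, e1]
    have : W * (A + v * d) + w + d = W * (A + v * d) + (d + w) := by ring
    rw [this, hstep]; ring
  rw [e1, e2, b_decomp K _ _ hw', b_decomp K _ _ hwlt, hs, hs'] at hm
  have e3 : (A % 64 + v * (d % 64)) % 64 = (A + v * d) % 64 := by
    rw [Nat.mod_add_mod, Nat.add_mod, Nat.mul_mod, Nat.mod_mod, ← Nat.mul_mod, ← Nat.add_mod]
  rw [e3] at hlt ⊢
  set X := A + v * d with hX
  have hl := local_b 4 X δ (by
    have : X % 2 ^ (4 + 1) = X % 64 % 32 := by norm_num
    rw [this]; exact hlt)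
  have e4 : (2 : ℕ) ^ (4 + 2) = 64 := by norm_num
  rw [e4] at hl
  have e5 : (X % 64).testBit 0 = X.testBit 0 := by
    have h64 : X % 64 % 2 = X % 2 := by omega
    simp only [Nat.testBit_zero, h64]
  have e6 : (X + δ).testBit 0 = (X.testBit 0 ^^ δ.testBit 0) := by
    simp only [Nat.testBit_zero]
    rcases Nat.mod_two_eq_zero_or_one X with h1 | h1 <;> rcases Nat.mod_two_eq_zero_or_one δ with h2 | h2 <;>
      simp [Nat.add_mod, h1, h2]
  rw [e6] at hm
  rw [e5]
  revert hm hl
  cases b (X + δ) <;> cases b X <;> cases b (X % 64 + δ) <;> cases b (X % 64) <;> cases b w <;> cases b w' <;>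
    cases X.testBit 0 <;> cases δ.testBit 0 <;> cases s <;> cases s' <;> simp

theorem winK {n d K δ₁ δ₂ w w' w'' i : ℕ} {s s' s'' : Bool} (hδ₁ : δ₁ ≤ 32) (hδ₂ : δ₂ ≤ 32)
    (hmono : ∀ i < 8 * 2 ^ (K + 1), b (n + (i + 1) * d) = b (n + i * d))
    (hi : i < 2 ^ (K + 1)) (hw : (n + i * d) % 2 ^ (K + 1) = w)
    (hstep : d + w = 2 ^ (K + 1) * δ₁ + w') (hw' : w' < 2 ^ (K + 1))
    (hstep' : d + w' = 2 ^ (K + 1) * δ₂ + w'') (hw'' : w'' < 2 ^ (K + 1))
    (hs : decide (2 ^ K ≤ w) = s) (hs' : decide (2 ^ K ≤ w') = s') (hs'' : decide (2 ^ K ≤ w'') = s'') :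
    (Km (d % 64) δ₁ (s ^^ s') δ₂ (s' ^^ s'') ((b w ^^ b w') ^^ (δ₁.testBit 0 && s'))
      ((b w' ^^ b w'') ^^ (δ₂.testBit 0 && s''))).testBit
      ((n + i * d) / 2 ^ (K + 1) % 64) = true := by
  unfold Km
  rw [Nat.testBit_and, win hδ₁ hmono hi hw hstep hw' hs hs', Bool.true_and, Nat.testBit_or,
    testBit_rot (Gm_lt _ _ _ _) (by omega) (Nat.mod_lt _ (by norm_num)),
    testBit_rot (Gm_lt _ _ _ _) (Nat.mod_lt _ (by norm_num)).le (Nat.mod_lt _ (by norm_num)), Bool.or_eq_true]
  set W := 2 ^ (K + 1) with hW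
  have hWpos : 0 < W := by positivity
  set A := (n + i * d) / W with hA
  have hx : n + i * d = W * A + w := by rw [← hw]; exact (Nat.div_add_mod _ _).symm
  have hx' : n + (i + 1) * d = W * (A + δ₁) + w' := by
    have : n + (i + 1) * d = (n + i * d) + d := by ring
    rw [this, hx]
    have : W * A + w + d = W * A + (d + w) := by ring
    rw [this, hstep]; ring
  rcases Nat.lt_or_ge (i + 1) W with hlt | hge
  · left
    have hmod : (n + (i + 1) * d) % W = w' := by
      rw [hx', Nat.mul_add_mod, Nat.mod_eq_of_lt hw']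
    have hdiv : (n + (i + 1) * d) / W = A + δ₁ := by
      rw [hx', Nat.mul_add_div hWpos, Nat.div_eq_of_lt hw', add_zero]
    have := win hδ₂ hmono hlt hmod hstep' hw'' hs' hs''
    rw [hdiv] at this
    rw [Nat.mod_add_mod]
    exact this
  · right
    have hiW : i + 1 = W := by omega
    rw [hiW] at hx'
    have h0 : n + 0 * d = n := by ring
    have hmod : (n + 0 * d) % W = w' := by
      rw [h0]
      have : (n + W * d) % W = n % W := by rw [Nat.add_mul_mod_self_left]
      rw [← this, hx', Nat.mul_add_mod, Nat.mod_eq_of_lt hw']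
    have hdiv : (n + 0 * d) / W + d = A + δ₁ := by
      rw [h0]
      have : (n + W * d) / W = n / W + d := Nat.add_mul_div_left _ _ hWpos
      rw [← this, hx', Nat.mul_add_div hWpos, Nat.div_eq_of_lt hw', add_zero]
    have := win hδ₂ hmono hWpos hmod hstep' hw'' hs' hs''
    have e : (A % 64 + (δ₁ + (64 - d % 64)) % 64) % 64 = (n + 0 * d) / W % 64 := by
      generalize (n + 0 * d) / W = Q at hdiv
      omega
    rw [e]
    exact this

/-! ### moves -/

theorem coprime_two_pow {d : ℕ} (hd : d % 2 = 1) (m : ℕ) : Nat.Coprime d (2 ^ m) := by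
  apply Nat.Coprime.pow_right
  rw [Nat.coprime_two_right]
  exact Nat.odd_iff.mpr hd

theorem exists_index {n d K w : ℕ} (hd : d % 2 = 1) (hw : w < 2 ^ (K + 1)) :
    ∃ i < 2 ^ (K + 1), (n + i * d) % 2 ^ (K + 1) = w := by
  set W := 2 ^ (K + 1) with hW
  have hWpos : 0 < W := by positivity
  obtain ⟨m, hm, h⟩ := Nat.exists_mul_mod_eq_of_coprime (w + (W - n % W)) (coprime_two_pow hd (K + 1)) hWpos.ne'
  rw [← hW] at h hm
  refine ⟨m, hm, ?_⟩
  have hn : n % W < W := Nat.mod_lt _ hWpos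
  rw [Nat.add_mod, Nat.mul_comm m d, h, Nat.add_mod_mod]
  have : n % W + (w + (W - n % W)) = w + W := by omega
  rw [this, Nat.add_mod_right, Nat.mod_eq_of_lt hw]

theorem exists_move (n : ℕ) {d K : ℕ} (hd : d % 2 = 1) :
    ∃ P < 64, ∀ i i' w, i < 2 ^ (K + 1) → i' < 2 ^ (K + 1) → (n + i * d) % 2 ^ (K + 1) = w →
      (n + i' * d) % 2 ^ (K + 1) = w + 1 →
      ((n + i' * d) / 2 ^ (K + 1) % 64) % 64 = ((n + i * d) / 2 ^ (K + 1) % 64 + P) % 64 ∨
      ((n + i' * d) / 2 ^ (K + 1) % 64 + d % 64) % 64 = ((n + i * d) / 2 ^ (K + 1) % 64 + P) % 64 := by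
  set W := 2 ^ (K + 1) with hW
  have hW1 : 1 < W := Nat.one_lt_two_pow (by omega)
  obtain ⟨q, hq, hq1⟩ := Nat.exists_mul_mod_eq_one_of_coprime (coprime_two_pow hd (K + 1)) (by rw [← hW]; exact hW1)
  rw [← hW] at hq hq1
  set p := d * q / W with hp
  have hqd : q * d = W * p + 1 := by
    rw [Nat.mul_comm q d, hp]
    have := Nat.div_add_mod (d * q) W
    rw [hq1] at this
    exact this.symm
  refine ⟨p % 64, Nat.mod_lt _ (by norm_num), ?_⟩
  intro i i' w hi hi' hw hw'
  have hWpos : 0 < W := by omega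
  set A := (n + i * d) / W with hA
  set A' := (n + i' * d) / W with hA'
  have hx : n + i * d = W * A + w := by rw [← hw]; exact (Nat.div_add_mod _ _).symm
  have hx' : n + i' * d = W * A' + (w + 1) := by rw [← hw']; exact (Nat.div_add_mod _ _).symm
  have hxq : n + (i + q) * d = W * (A + p) + (w + 1) := by
    have : n + (i + q) * d = (n + i * d) + q * d := by ring
    rw [this, hx, hqd]; ring
  -- i + q ≡ i' mod W
  have hmod : (i + q) % W = i' % W := by
    have h1 : ((i + q) * d) ≡ (i' * d) [MOD W] := by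
      have h2 : n + (i + q) * d ≡ n + i' * d [MOD W] := by
        rw [hxq, hx']
        unfold Nat.ModEq
        rw [Nat.mul_add_mod, Nat.mul_add_mod]
      exact Nat.ModEq.add_left_cancel' n h2
    exact Nat.ModEq.cancel_right_of_coprime (by
      have := coprime_two_pow hd (K + 1)
      rw [← hW] at this
      exact this.symm) h1
  rw [Nat.mod_eq_of_lt hi'] at hmod
  rcases Nat.lt_or_ge (i + q) W with hlt | hge
  · rw [Nat.mod_eq_of_lt hlt] at hmod
    left
    rw [hmod, hx'] at hxq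
    have hAA : A' = A + p := by
      have : W * A' = W * (A + p) := by omega
      exact Nat.eq_of_mul_eq_mul_left hWpos this
    rw [hAA]; omega
  · rw [Nat.mod_eq_sub_mod hge, Nat.mod_eq_of_lt (by omega)] at hmod
    right
    have h3 : n + (i + q) * d = n + i' * d + W * d := by
      have : i + q = i' + W := by omega
      rw [this]; ring
    rw [h3, hx'] at hxq
    have hAA : A' + d = A + p := by
      have : W * (A' + d) = W * (A + p) := by
        rw [Nat.mul_add]; omega
      exact Nat.eq_of_mul_eq_mul_left hWpos this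
    omega

/-! ### derivative of the sequence modulo 4 -/

theorem der0 (y : ℕ) : (b (4 * y) ^^ b (4 * y + 1)) = false := by
  have h1 : 4 * y = 2 * (2 * y) := by ring
  have h2 : 4 * y + 1 = 2 * (2 * y) + 1 := by ring
  have h3 : (2 * y).testBit 0 = false := by simp [Nat.testBit_zero]
  rw [h2, b_two_mul_add_one, h1, b_two_mul, h3, Bool.xor_false, Bool.xor_self]

theorem der2 (y : ℕ) : (b (4 * y + 2) ^^ b (4 * y + 3)) = true := by
  have h1 : 4 * y + 2 = 2 * (2 * y + 1) := by ring
  have h2 : 4 * y + 3 = 2 * (2 * y + 1) + 1 := by ring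
  have h3 : (2 * y + 1).testBit 0 = true := by simp [Nat.testBit_zero]
  rw [h2, b_two_mul_add_one, h1, b_two_mul, h3]
  cases b (2 * y + 1) <;> rfl

theorem der1 (y : ℕ) : (b (4 * y + 1) ^^ b (4 * y + 2)) = y.testBit 0 := by
  have h1 : 4 * y + 2 = 2 * (2 * y + 1) := by ring
  have h2 : 4 * y + 1 = 2 * (2 * y) + 1 := by ring
  have h3 : (2 * y).testBit 0 = false := by simp [Nat.testBit_zero]
  rw [h1, b_two_mul, b_two_mul_add_one, h2, b_two_mul_add_one, b_two_mul, h3, Bool.xor_false]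
  cases b y <;> cases y.testBit 0 <;> rfl

theorem testBit_zero_succ (y : ℕ) : (y + 1).testBit 0 = !y.testBit 0 := by
  simp only [Nat.testBit_zero]
  rcases Nat.mod_two_eq_zero_or_one y with h | h <;> simp [Nat.add_mod, h]

/-- The core lemma: nine consecutive residues with prescribed types of windows. -/
theorem core {n d K δ₁ δ₂ a a' a'' : ℕ} {s s' s'' : Bool} (hK : 1 ≤ K) (hd : d % 2 = 1)
    (hδ₁ : δ₁ ≤ 32) (hδ₂ : δ₂ ≤ 32)
    (hmono : ∀ i < 8 * 2 ^ (K + 1), b (n + (i + 1) * d) = b (n + i * d))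
    (hstep : d + a = 2 ^ (K + 1) * δ₁ + a') (hstep' : d + a' = 2 ^ (K + 1) * δ₂ + a'')
    (ha : ∀ u ≤ 8, a + u < 2 ^ (K + 1) ∧ decide (2 ^ K ≤ a + u) = s)
    (ha' : ∀ u ≤ 8, a' + u < 2 ^ (K + 1) ∧ decide (2 ^ K ≤ a' + u) = s')
    (ha'' : ∀ u ≤ 8, a'' + u < 2 ^ (K + 1) ∧ decide (2 ^ K ≤ a'' + u) = s'')
    (hchk : chk (d % 64) δ₁ (s ^^ s') δ₂ (s' ^^ s'') = true) : False := by
  obtain ⟨P, hP, hmove⟩ := exists_move n (K := K) hd
  -- membership
  have hmem : ∀ u ≤ 8, ∃ i < 2 ^ (K + 1), (n + i * d) % 2 ^ (K + 1) = a + u ∧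
      (Km (d % 64) δ₁ (s ^^ s') δ₂ (s' ^^ s'') ((b (a + u) ^^ b (a' + u)) ^^ (δ₁.testBit 0 && s'))
      ((b (a' + u) ^^ b (a'' + u)) ^^ (δ₂.testBit 0 && s''))).testBit
      ((n + i * d) / 2 ^ (K + 1) % 64) = true := by
    intro u hu
    obtain ⟨i, hi, hw⟩ := exists_index (n := n) hd (ha u hu).1
    exact ⟨i, hi, hw, winK hδ₁ hδ₂ hmono hi hw (by omega) (ha' u hu).1 (by omega) (ha'' u hu).1
      (ha u hu).2 (ha' u hu).2 (ha'' u hu).2⟩
  -- choose u
  have hW4 : ∃ c, 2 ^ (K + 1) = 4 * c := by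
    obtain ⟨j, rfl⟩ : ∃ j, K = j + 1 := ⟨K - 1, by omega⟩
    exact ⟨2 ^ j, by rw [pow_succ, pow_succ]; ring⟩
  obtain ⟨c, hc⟩ := hW4
  obtain ⟨u, hu, hu1⟩ : ∃ u ≤ 3, (a' + u) % 4 = 1 := ⟨(5 - a' % 4) % 4, by omega, by omega⟩
  obtain ⟨y, hy⟩ : ∃ y, a' + u = 4 * y + 1 := ⟨(a' + u) / 4, by omega⟩
  have e1 : 2 ^ (K + 1) * δ₁ = 4 * (c * δ₁) := by rw [hc]; ring
  have e2 : 2 ^ (K + 1) * δ₂ = 4 * (c * δ₂) := by rw [hc]; ring
  obtain ⟨i0, hi0, hw0, hk0⟩ := hmem u (by omega)
  obtain ⟨i1, hi1, hw1, hk1⟩ := hmem (u + 1) (by omega)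
  obtain ⟨i4, hi4, hw4, hk4⟩ := hmem (u + 4) (by omega)
  obtain ⟨i5, hi5, hw5, hk5⟩ := hmem (u + 5) (by omega)
  have m1 := hmove i0 i1 (a + u) hi0 hi1 hw0 (by rw [hw1]; ring)
  have m2 := hmove i4 i5 (a + (u + 4)) hi4 hi5 hw4 (by rw [hw5]; ring)
  have l1 : ∀ j, (n + j * d) / 2 ^ (K + 1) % 64 < 64 := fun j => Nat.mod_lt _ (by norm_num)
  have hD : d % 64 < 64 := Nat.mod_lt _ (by norm_num)
  -- derivatives
  have c1 : (b (a' + u) ^^ b (a' + (u + 1))) = y.testBit 0 := by
    have h1 : a' + (u + 1) = 4 * y + 2 := by omega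
    rw [hy, h1]; exact der1 y
  have c2 : (b (a' + (u + 4)) ^^ b (a' + (u + 5))) = !y.testBit 0 := by
    have h1 : a' + (u + 4) = 4 * (y + 1) + 1 := by omega
    have h2 : a' + (u + 5) = 4 * (y + 1) + 2 := by omega
    rw [h1, h2, der1 (y + 1), testBit_zero_succ]
  have hpar : (d % 4 = 1) ∨ (d % 4 = 3) := by omega
  have c3 : ∃ t : Bool, (b (a + u) ^^ b (a + (u + 1))) = t ∧ (b (a + (u + 4)) ^^ b (a + (u + 5))) = t ∧
      (b (a'' + u) ^^ b (a'' + (u + 1))) = !t ∧ (b (a'' + (u + 4)) ^^ b (a'' + (u + 5))) = !t := by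
    generalize c * δ₁ = C1 at e1
    generalize c * δ₂ = C2 at e2
    rw [e1] at hstep
    rw [e2] at hstep'
    rcases hpar with hp | hp
    · -- a + u ≡ 0, a'' + u ≡ 2
      obtain ⟨z, hz⟩ : ∃ z, a + u = 4 * z := ⟨(a + u) / 4, by omega⟩
      obtain ⟨x, hx⟩ : ∃ x, a'' + u = 4 * x + 2 := ⟨(a'' + u) / 4, by omega⟩
      refine ⟨false, ?_, ?_, ?_, ?_⟩
      · have h1 : a + (u + 1) = 4 * z + 1 := by omega
        rw [hz, h1]; exact der0 z
      · have h1 : a + (u + 4) = 4 * (z + 1) := by omega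
        have h2 : a + (u + 5) = 4 * (z + 1) + 1 := by omega
        rw [h1, h2]; exact der0 (z + 1)
      · have h1 : a'' + (u + 1) = 4 * x + 3 := by omega
        rw [hx, h1]; exact der2 x
      · have h1 : a'' + (u + 4) = 4 * (x + 1) + 2 := by omega
        have h2 : a'' + (u + 5) = 4 * (x + 1) + 3 := by omega
        rw [h1, h2]; exact der2 (x + 1)
    · obtain ⟨z, hz⟩ : ∃ z, a + u = 4 * z + 2 := ⟨(a + u) / 4, by omega⟩
      obtain ⟨x, hx⟩ : ∃ x, a'' + u = 4 * x := ⟨(a'' + u) / 4, by omega⟩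
      refine ⟨true, ?_, ?_, ?_, ?_⟩
      · have h1 : a + (u + 1) = 4 * z + 3 := by omega
        rw [hz, h1]; exact der2 z
      · have h1 : a + (u + 4) = 4 * (z + 1) + 2 := by omega
        have h2 : a + (u + 5) = 4 * (z + 1) + 3 := by omega
        rw [h1, h2]; exact der2 (z + 1)
      · have h1 : a'' + (u + 1) = 4 * x + 1 := by omega
        rw [hx, h1]; exact der0 x
      · have h1 : a'' + (u + 4) = 4 * (x + 1) := by omega
        have h2 : a'' + (u + 5) = 4 * (x + 1) + 1 := by omega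
        rw [h1, h2]; exact der0 (x + 1)
  obtain ⟨t, t1, t2, t3, t4⟩ := c3
  -- generalise
  generalize hA0 : (n + i0 * d) / 2 ^ (K + 1) % 64 = g0 at *
  generalize hA1 : (n + i1 * d) / 2 ^ (K + 1) % 64 = g1 at *
  generalize hA4 : (n + i4 * d) / 2 ^ (K + 1) % 64 = g4 at *
  generalize hA5 : (n + i5 * d) / 2 ^ (K + 1) % 64 = g5 at *
  have q0 : g0 < 64 := by rw [← hA0]; exact l1 i0
  have q1 : g1 < 64 := by rw [← hA1]; exact l1 i1
  have q4 : g4 < 64 := by rw [← hA4]; exact l1 i4
  have q5 : g5 < 64 := by rw [← hA5]; exact l1 i5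
  generalize (δ₁.testBit 0 && s') = κa at *
  generalize (δ₂.testBit 0 && s'') = κb at *
  have key : ∀ (v1 v2 v1' v2' v4 v5 v4' v5' : Bool),
      (Km (d % 64) δ₁ (s ^^ s') δ₂ (s' ^^ s'') v1 v2).testBit g0 = true →
      (Km (d % 64) δ₁ (s ^^ s') δ₂ (s' ^^ s'') v1' v2').testBit g1 = true →
      (Km (d % 64) δ₁ (s ^^ s') δ₂ (s' ^^ s'') v4 v5).testBit g4 = true →
      (Km (d % 64) δ₁ (s ^^ s') δ₂ (s' ^^ s'') v4' v5').testBit g5 = true →
      ((v1' = v1 ∧ v2' = (!v2) ∧ v4' = (!v4) ∧ v5' = v5) ∨ (v1' = (!v1) ∧ v2' = v2 ∧ v4' = v4 ∧ v5' = (!v5))) →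
      False := by
    intro v1 v2 v1' v2' v4 v5 v4' v5' h0 h1 h4 h5 hor
    rcases hor with ⟨r1, r2, r3, r4⟩ | ⟨r1, r2, r3, r4⟩
    · subst r1 r2 r3 r4
      exact chk_sound hD hchk hP q0 q1 q4 q5 h0 h1 h4 h5 m1 m2
    · subst r1 r2 r3 r4
      exact chk_sound hD hchk hP q4 q5 q0 q1 h4 h5 h0 h1 m2 m1
  refine key _ _ _ _ _ _ _ _ hk0 hk1 hk4 hk5 ?_
  clear key hk0 hk1 hk4 hk5 hmem hmove hmono hchk m1 m2
  generalize b (a + u) = x1 at *
  generalize b (a + (u + 1)) = x2 at *
  generalize b (a + (u + 4)) = x3 at *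
  generalize b (a + (u + 5)) = x4 at *
  generalize b (a' + u) = y1 at *
  generalize b (a' + (u + 1)) = y2 at *
  generalize b (a' + (u + 4)) = y3 at *
  generalize b (a' + (u + 5)) = y4 at *
  generalize b (a'' + u) = z1 at *
  generalize b (a'' + (u + 1)) = z2 at *
  generalize b (a'' + (u + 4)) = z3 at *
  generalize b (a'' + (u + 5)) = z4 at *
  generalize y.testBit 0 = yy at *
  clear ha ha' ha'' hA0 hA1 hA4 hA5 q0 q1 q4 q5 l1 hw0 hw1 hw4 hw5
  clear hstep hstep' hu hu1 hy e1 e2 hi0 hi1 hi4 hi5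
  obtain rfl : x2 = (x1 ^^ t) := by rw [← t1]; cases x1 <;> simp
  obtain rfl : x4 = (x3 ^^ t) := by rw [← t2]; cases x3 <;> simp
  obtain rfl : y2 = (y1 ^^ yy) := by rw [← c1]; cases y1 <;> simp
  obtain rfl : y4 = (y3 ^^ !yy) := by rw [← c2]; cases y3 <;> simp
  obtain rfl : z2 = (z1 ^^ !t) := by rw [← t3]; cases z1 <;> simp
  obtain rfl : z4 = (z3 ^^ !t) := by rw [← t4]; cases z3 <;> simp
  clear t1 t2 t3 t4 c1 c2
  revert x1 x3 y1 y3 z1 z3 yy t κa κb
  decide

/-! ### the large case -/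

theorem chk_CN {D δ : ℕ} (hD : D < 64) (hD1 : D % 2 = 1) (h1 : 8 ≤ δ) (h2 : δ ≤ 16) :
    chk D δ true δ false = true := by
  have := allLt_spec (allLt_spec fin_CN (i := δ - 8) (by omega)) (i := D / 2) (by omega)
  rwa [show 2 * (D / 2) + 1 = D by omega, show 8 + (δ - 8) = δ by omega] at this

theorem chk_CWp {D δ : ℕ} (hD : D < 64) (hD1 : D % 2 = 1) (h1 : 8 ≤ δ) (h2 : δ ≤ 15) :
    chk D δ true (δ + 1) true = true := by
  have := allLt_spec (allLt_spec fin_CWp (i := δ - 8) (by omega)) (i := D / 2) (by omega)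
  rwa [show 2 * (D / 2) + 1 = D by omega, show 8 + (δ - 8) = δ by omega, show 9 + (δ - 8) = δ + 1 by omega] at this

theorem chk_CWm {D δ : ℕ} (hD : D < 64) (hD1 : D % 2 = 1) (h1 : 8 ≤ δ) (h2 : δ ≤ 15) :
    chk D (δ + 1) true δ true = true := by
  have := allLt_spec (allLt_spec fin_CWm (i := δ - 8) (by omega)) (i := D / 2) (by omega)
  rwa [show 2 * (D / 2) + 1 = D by omega, show 8 + (δ - 8) = δ by omega, show 9 + (δ - 8) = δ + 1 by omega] at this

theorem chk_NN {e δ : ℕ} (he : 3 ≤ e) (he' : e ≤ 7) (he1 : e % 2 = 1) (h1 : 8 ≤ δ) (h2 : δ ≤ 16) :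
    chk e δ false δ false = true ∧ chk (64 - e) δ false δ false = true := by
  have := allLt_spec (allLt_spec fin_NN (i := δ - 8) (by omega)) (i := (e - 3) / 2) (by omega)
  simp only [Bool.and_eq_true] at this
  rwa [show 2 * ((e - 3) / 2) + 3 = e by omega, show 8 + (δ - 8) = δ by omega,
    show 61 - 2 * ((e - 3) / 2) = 64 - e by omega] at this

theorem chk_NN1 {δ : ℕ} (h1 : 9 ≤ δ) (h2 : δ ≤ 15) :
    chk 1 δ false δ false = true ∧ chk 63 δ false δ false = true := by
  have := allLt_spec fin_NN1 (i := δ - 9) (by omega)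
  simp only [Bool.and_eq_true] at this
  rwa [show 9 + (δ - 9) = δ by omega] at this

theorem large {d K : ℕ} (hK : 5 ≤ K) (hd : d % 2 = 1) (h1 : 8 * 2 ^ (K + 1) < d)
    (h2 : d + 1 < 16 * 2 ^ (K + 1)) (n : ℕ) :
    ¬ ∀ i < 8 * 2 ^ (K + 1), b (n + (i + 1) * d) = b (n + i * d) := by
  intro hmono
  obtain ⟨c, hc⟩ : ∃ c, 2 ^ K = 32 * c := by
    obtain ⟨j, rfl⟩ : ∃ j, K = j + 5 := ⟨K - 5, by omega⟩
    exact ⟨2 ^ j, by rw [pow_add]; ring⟩
  have hcpos : 0 < c := by
    rcases Nat.eq_zero_or_pos c with h | h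
    · rw [h, mul_zero] at hc
      have : 0 < 2 ^ K := by positivity
      omega
    · exact h
  have hWH : 2 ^ (K + 1) = 2 * 2 ^ K := by rw [pow_succ]; ring
  set H := 2 ^ K with hH
  have hH32 : 32 ≤ H := by omega
  have hD : d % 64 < 64 := Nat.mod_lt _ (by norm_num)
  have hD1 : d % 64 % 2 = 1 := by omega
  have hWpos : 0 < 2 ^ (K + 1) := by positivity
  have hdiv : d = 2 ^ (K + 1) * (d / 2 ^ (K + 1)) + d % 2 ^ (K + 1) := (Nat.div_add_mod _ _).symm
  have hρlt : d % 2 ^ (K + 1) < 2 ^ (K + 1) := Nat.mod_lt _ hWpos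
  have hq8 : 8 ≤ d / 2 ^ (K + 1) := by
    rw [Nat.le_div_iff_mul_le hWpos]; omega
  have hq15 : d / 2 ^ (K + 1) ≤ 15 := by
    have : d / 2 ^ (K + 1) < 16 := by
      rw [Nat.div_lt_iff_lt_mul hWpos]; omega
    omega
  generalize hq : d / 2 ^ (K + 1) = q at *
  generalize hρ : d % 2 ^ (K + 1) = ρ at *
  have hWq : 2 ^ (K + 1) * q = 64 * (c * q) := by rw [hWH, hc]; ring
  have hWq1 : 2 ^ (K + 1) * (q + 1) = 2 ^ (K + 1) * q + 2 * H := by rw [Nat.mul_add, ← hWH, mul_one]
  have hρ1 : ρ % 2 = 1 := by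
    generalize c * q = Q at *
    omega
  have hDρ : d % 64 = ρ % 64 := by
    generalize c * q = Q at *
    omega
  rcases Nat.lt_or_ge ρ H with hlow | hhigh
  · -- e = ρ > 0
    rcases Nat.lt_or_ge ρ 9 with h9 | h9
    · -- NN
      rcases Nat.eq_or_lt_of_le hq8 with h8 | h8
      · rcases Nat.lt_or_ge ρ 3 with h3 | h3
        · -- special
          have hρe : ρ = 1 := by omega
          subst hρe
          subst h8
          obtain ⟨i, hi, hw⟩ := exists_index (n := n) (K := K) (w := 2) hd (by omega)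
          have hk := winK (δ₁ := 8) (δ₂ := 8) (w := 2) (w' := 3) (w'' := 4) (s := false) (s' := false) (s'' := false)
            (by norm_num) (by norm_num) hmono hi hw (by omega) (by omega) (by omega) (by omega)
            (by rw [decide_eq_false_iff_not]; omega) (by rw [decide_eq_false_iff_not]; omega)
            (by rw [decide_eq_false_iff_not]; omega)
          have b1 : b 1 = false := by
            have h1 := b_two_mul_add_one 0
            simpa [b_zero] using h1
          have b2 : b 2 = false := by rw [show 2 = 2 * 1 by norm_num, b_two_mul, b1]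
          have b3 : b 3 = true := by
            rw [show 3 = 2 * 1 + 1 by norm_num, b_two_mul_add_one, b1]; rfl
          have b4 : b 4 = false := by rw [show 4 = 2 * 2 by norm_num, b_two_mul, b2]
          have hD' : d % 64 = 1 := by omega
          rw [b2, b3, b4, hD'] at hk
          simp only [Bool.and_false, Bool.xor_false, Bool.xor_self, Bool.false_xor, Bool.xor_true, Bool.not_false] at hk
          rw [fin_sp, Nat.zero_testBit] at hk
          exact absurd hk (by decide)
        · refine core (n := n) (d := d) (K := K) (δ₁ := q) (δ₂ := q) (a := 0) (a' := ρ) (a'' := 2 * ρ)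
            (s := false) (s' := false) (s'' := false) (by omega) hd (by omega) (by omega) hmono
            (by omega) (by omega)
            (fun u hu => ⟨by omega, by rw [decide_eq_false_iff_not]; omega⟩)
            (fun u hu => ⟨by omega, by rw [decide_eq_false_iff_not]; omega⟩)
            (fun u hu => ⟨by omega, by rw [decide_eq_false_iff_not]; omega⟩) ?_
          have : d % 64 = ρ := by omega
          rw [this]
          exact (chk_NN h3 (by omega) (by omega) hq8 (by omega)).1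
      · refine core (n := n) (d := d) (K := K) (δ₁ := q) (δ₂ := q) (a := 0) (a' := ρ) (a'' := 2 * ρ)
            (s := false) (s' := false) (s'' := false) (by omega) hd (by omega) (by omega) hmono
            (by omega) (by omega)
            (fun u hu => ⟨by omega, by rw [decide_eq_false_iff_not]; omega⟩)
            (fun u hu => ⟨by omega, by rw [decide_eq_false_iff_not]; omega⟩)
            (fun u hu => ⟨by omega, by rw [decide_eq_false_iff_not]; omega⟩) ?_
        have : d % 64 = ρ := by omega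
        rw [this]
        rcases Nat.lt_or_ge ρ 3 with h3 | h3
        · have hρe : ρ = 1 := by omega
          rw [hρe]
          exact (chk_NN1 (by omega) (by omega)).1
        · exact (chk_NN h3 (by omega) (by omega) hq8 (by omega)).1
    · rcases Nat.lt_or_ge (ρ + 8) H with hcn | hcw
      · -- CN
        refine core (n := n) (d := d) (K := K) (δ₁ := q) (δ₂ := q) (a := H - ρ) (a' := H) (a'' := H + ρ)
            (s := false) (s' := true) (s'' := true) (by omega) hd (by omega) (by omega) hmono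
            (by omega) (by omega)
            (fun u hu => ⟨by omega, by rw [decide_eq_false_iff_not]; omega⟩)
            (fun u hu => ⟨by omega, by rw [decide_eq_true_iff]; omega⟩)
            (fun u hu => ⟨by omega, by rw [decide_eq_true_iff]; omega⟩) ?_
        exact chk_CN hD hD1 hq8 (by omega)
      · -- CW
        refine core (n := n) (d := d) (K := K) (δ₁ := q) (δ₂ := q + 1) (a := H - ρ + 7) (a' := H + 7) (a'' := ρ + 7 - H)
            (s := false) (s' := true) (s'' := false) (by omega) hd (by omega) (by omega) hmono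
            (by omega) (by omega)
            (fun u hu => ⟨by omega, by rw [decide_eq_false_iff_not]; omega⟩)
            (fun u hu => ⟨by omega, by rw [decide_eq_true_iff]; omega⟩)
            (fun u hu => ⟨by omega, by rw [decide_eq_false_iff_not]; omega⟩) ?_
        exact chk_CWp hD hD1 hq8 (by omega)
  · -- e = - E
    obtain ⟨E, hE⟩ : ∃ E, ρ + E = 2 * H := ⟨2 * H - ρ, by omega⟩
    have hEpos : 1 ≤ E := by omega
    have hEH : E < H := by omega
    have hE1 : E % 2 = 1 := by omega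
    rcases Nat.lt_or_ge E 9 with h9 | h9
    · -- NN
      refine core (n := n) (d := d) (K := K) (δ₁ := q + 1) (δ₂ := q + 1) (a := 14) (a' := 14 - E) (a'' := 14 - 2 * E)
            (s := false) (s' := false) (s'' := false) (by omega) hd (by omega) (by omega) hmono
            (by omega) (by omega)
            (fun u hu => ⟨by omega, by rw [decide_eq_false_iff_not]; omega⟩)
            (fun u hu => ⟨by omega, by rw [decide_eq_false_iff_not]; omega⟩)
            (fun u hu => ⟨by omega, by rw [decide_eq_false_iff_not]; omega⟩) ?_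
      have : d % 64 = 64 - E := by omega
      rw [this]
      rcases Nat.lt_or_ge E 3 with h3 | h3
      · have hEe : E = 1 := by omega
        rw [hEe]
        have hq14 : q ≠ 15 := by
          intro h15
          subst h15
          omega
        exact (chk_NN1 (by omega) (by omega)).2
      · exact (chk_NN h3 (by omega) (by omega) (by omega) (by omega)).2
    · rcases Nat.lt_or_ge (E + 8) H with hcn | hcw
      · -- CN
        refine core (n := n) (d := d) (K := K) (δ₁ := q + 1) (δ₂ := q + 1) (a := H + E - 9) (a' := H - 9) (a'' := H - E - 9)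
            (s := true) (s' := false) (s'' := false) (by omega) hd (by omega) (by omega) hmono
            (by omega) (by omega)
            (fun u hu => ⟨by omega, by rw [decide_eq_true_iff]; omega⟩)
            (fun u hu => ⟨by omega, by rw [decide_eq_false_iff_not]; omega⟩)
            (fun u hu => ⟨by omega, by rw [decide_eq_false_iff_not]; omega⟩) ?_
        exact chk_CN hD hD1 (by omega) (by omega)
      · -- CW
        refine core (n := n) (d := d) (K := K) (δ₁ := q + 1) (δ₂ := q) (a := H) (a' := H - E) (a'' := 3 * H - 2 * E)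
            (s := true) (s' := false) (s'' := true) (by omega) hd (by omega) (by omega) hmono
            (by omega) (by omega)
            (fun u hu => ⟨by omega, by rw [decide_eq_true_iff]; omega⟩)
            (fun u hu => ⟨by omega, by rw [decide_eq_false_iff_not]; omega⟩)
            (fun u hu => ⟨by omega, by rw [decide_eq_true_iff]; omega⟩) ?_
        exact chk_CWm hD hD1 hq8 hq15

/-! ### the reflection -/

theorem b_reflect (K j : ℕ) (hj : j < 2 ^ K) :
    b (2 ^ (K + 1) - 1 - j) = ((b j ^^ j.testBit 0) ^^ K.testBit 0) := by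
  induction K generalizing j with
  | zero =>
    have : j = 0 := by simpa using hj
    subst this
    have h1 := b_two_mul_add_one 0
    simp [b_zero] at h1 ⊢
    exact h1
  | succ K ih =>
    have e1 : 2 ^ (K + 1) = 2 * 2 ^ K := by rw [pow_succ]; ring
    have e2 : 2 ^ (K + 1 + 1) = 2 * 2 ^ (K + 1) := by rw [pow_succ]; ring
    rw [testBit_zero_succ]
    obtain ⟨z, hz | hz⟩ : ∃ z, j = 2 * z ∨ j = 2 * z + 1 := ⟨j / 2, by omega⟩
    · subst hz
      have hz' : z < 2 ^ K := by omega
      have e3 : 2 ^ (K + 1 + 1) - 1 - 2 * z = 2 * (2 ^ (K + 1) - 1 - z) + 1 := by omega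
      have e4 : (2 ^ (K + 1) - 1 - z).testBit 0 = !z.testBit 0 := by
        have : 2 ^ (K + 1) - 1 - z = 2 * (2 ^ K - 1 - z) + (z + 1) := by omega
        rw [this, testBit_zero_add_even, testBit_zero_succ]
      have e5 : (2 * z).testBit 0 = false := by simp [Nat.testBit_zero]
      rw [e3, b_two_mul_add_one, ih z hz', e4, e5, b_two_mul]
      cases b z <;> cases z.testBit 0 <;> cases K.testBit 0 <;> rfl
    · subst hz
      have hz' : z < 2 ^ K := by omega
      have e3 : 2 ^ (K + 1 + 1) - 1 - (2 * z + 1) = 2 * (2 ^ (K + 1) - 1 - z) := by omega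
      have e5 : (2 * z + 1).testBit 0 = true := by simp [Nat.testBit_zero]
      rw [e3, b_two_mul, ih z hz', e5, b_two_mul_add_one]
      cases b z <;> cases z.testBit 0 <;> cases K.testBit 0 <;> rfl

/-- `NP d l`: there is no progression of difference `d` with `l + 1` equal terms -/
def NP (d l : ℕ) : Prop := ∀ n, ¬ ∀ i < l, b (n + (i + 1) * d) = b (n + i * d)

theorem NP.mono {d l l' : ℕ} (h : NP d l) (hl : l ≤ l') : NP d l' :=
  fun n hc => h n fun i hi => hc i (by omega)

theorem NP.double {d l : ℕ} (h : NP d l) : NP (2 * d) l := by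
  intro n hc
  obtain ⟨m, hm | hm⟩ : ∃ m, n = 2 * m ∨ n = 2 * m + 1 := ⟨n / 2, by omega⟩
  · apply h m
    intro i hi
    have := hc i hi
    rw [hm, show 2 * m + (i + 1) * (2 * d) = 2 * (m + (i + 1) * d) by ring,
      show 2 * m + i * (2 * d) = 2 * (m + i * d) by ring, b_two_mul, b_two_mul] at this
    exact this
  · -- all terms smaller than 2^K
    obtain ⟨K, hK⟩ : ∃ K, m + l * d < 2 ^ K := ⟨_, Nat.lt_two_pow_self⟩
    have e2 : 2 ^ (K + 1) = 2 * 2 ^ K := by rw [pow_succ]; ring
    apply h (2 ^ (K + 1) - 1 - (m + l * d))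
    intro i hi
    have hle : (l - 1 - i + 1) * d ≤ l * d := Nat.mul_le_mul_right d (by omega)
    have hle2 : (l - 1 - i) * d ≤ l * d := Nat.mul_le_mul_right d (by omega)
    have := hc (l - 1 - i) (by omega)
    rw [hm, show 2 * m + 1 + (l - 1 - i + 1) * (2 * d) = 2 * (m + (l - 1 - i + 1) * d) + 1 by ring,
      show 2 * m + 1 + (l - 1 - i) * (2 * d) = 2 * (m + (l - 1 - i) * d) + 1 by ring,
      b_two_mul_add_one, b_two_mul_add_one] at this
    have k1 : 2 ^ (K + 1) - 1 - (m + l * d) + (i + 1) * d = 2 ^ (K + 1) - 1 - (m + (l - 1 - i) * d) := by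
      have : l * d = (l - 1 - i) * d + (i + 1) * d := by
        rw [← Nat.add_mul]; congr 1; omega
      omega
    have k2 : 2 ^ (K + 1) - 1 - (m + l * d) + i * d = 2 ^ (K + 1) - 1 - (m + (l - 1 - i + 1) * d) := by
      have : l * d = (l - 1 - i + 1) * d + i * d := by
        rw [← Nat.add_mul]; congr 1; omega
      omega
    rw [k1, k2, b_reflect K _ (by omega), b_reflect K _ (by omega), this]

/-! ### the differences `2^k - 1` -/

/-- the value of the `j`-th term in an aligned block of 16 (up to a constant) -/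
def fv (e : ℕ) (pa pc t : Bool) (j : ℕ) : Bool :=
  (((Rt 4).testBit (15 - j)) ^^ (pc && Nat.ble 8 (15 - j))) ^^
  (if e + j < 16 then ((Rt 4).testBit (e + j) ^^ (pa && Nat.ble 8 (e + j)))
   else (t ^^ ((Rt 4).testBit (e + j - 16) ^^ ((!pa) && Nat.ble 8 (e + j - 16)))))

theorem fv_lower : ∀ e < 16, ∀ pa pc t : Bool, ∃ j < 15, fv e pa pc t (j + 1) ≠ fv e pa pc t j := by
  decide +kernel

theorem fv_upper : ∀ e < 16, ∀ pa pc t : Bool, e % 4 = 0 ∨
    ∃ j < 15, (fv e pa pc t (j + 1) ^^ (e + (j + 1)).testBit 0) ≠ (fv e pa pc t j ^^ (e + j).testBit 0) := by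
  decide +kernel

theorem fv_spec (a c e j : ℕ) (he : e < 16) (hj : j < 16) :
    (b (16 * a + e + j) ^^ b (16 * c + 15 - j)) =
      ((b a ^^ b c) ^^ fv e (a.testBit 0) (c.testBit 0) (b a ^^ b (a + 1)) j) := by
  unfold fv
  have e8 : (2 : ℕ) ^ 3 = 8 := by norm_num
  have h1 : b (16 * c + 15 - j) = ((b c ^^ b (15 - j)) ^^ (c.testBit 0 && decide (8 ≤ 15 - j))) := by
    have : 16 * c + 15 - j = 2 ^ (3 + 1) * c + (15 - j) := by norm_num; omega
    rw [this, b_decomp 3 c (15 - j) (by norm_num; omega), e8]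
  have hb : ∀ x, Nat.ble 8 x = decide (8 ≤ x) := by
    intro x
    by_cases h : 8 ≤ x
    · rw [Nat.ble_eq_true_of_le h]; simp [h]
    · have : Nat.ble 8 x = false := by
        rw [Bool.eq_false_iff]; intro hc; exact h (Nat.le_of_ble_eq_true hc)
      rw [this]; simp [h]
  rw [h1, testBit_Rt 4 (15 - j) (by norm_num; omega), hb]
  split_ifs with h
  · have h2 : b (16 * a + e + j) = ((b a ^^ b (e + j)) ^^ (a.testBit 0 && decide (8 ≤ e + j))) := by
      have : 16 * a + e + j = 2 ^ (3 + 1) * a + (e + j) := by norm_num; omega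
      rw [this, b_decomp 3 a (e + j) (by norm_num; omega), e8]
    rw [h2, testBit_Rt 4 (e + j) (by norm_num; omega), hb]
    cases b a <;> cases b c <;> cases b (e + j) <;> cases b (15 - j) <;>
      cases (a.testBit 0 && decide (8 ≤ e + j)) <;> cases (c.testBit 0 && decide (8 ≤ 15 - j)) <;> rfl
  · have h2 : b (16 * a + e + j) = ((b (a + 1) ^^ b (e + j - 16)) ^^ ((!a.testBit 0) && decide (8 ≤ e + j - 16))) := by
      have : 16 * a + e + j = 2 ^ (3 + 1) * (a + 1) + (e + j - 16) := by norm_num; omega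
      rw [this, b_decomp 3 (a + 1) (e + j - 16) (by norm_num; omega), testBit_zero_succ, e8]
    rw [h2, testBit_Rt 4 (e + j - 16) (by norm_num; omega), hb]
    cases b a <;> cases b (a + 1) <;> cases b c <;> cases b (e + j - 16) <;> cases b (15 - j) <;>
      cases ((!a.testBit 0) && decide (8 ≤ e + j - 16)) <;> cases (c.testBit 0 && decide (8 ≤ 15 - j)) <;> rfl

/-- no long run in a lower half -/
theorem run_lower {H w : ℕ} (hw : 30 ≤ w)
    (h : ∀ j < 30, (b (H + (j + 1)) ^^ b (w - (j + 1))) = (b (H + j) ^^ b (w - j))) : False := by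
  obtain ⟨s, hs, c, hc⟩ : ∃ s ≤ 15, ∃ c, w - s = 16 * c + 15 := ⟨(w - 15) % 16, by omega, (w - 15) / 16, by omega⟩
  obtain ⟨a, e, he, hae⟩ : ∃ a e, e < 16 ∧ H + s = 16 * a + e := ⟨(H + s) / 16, (H + s) % 16, by omega, by omega⟩
  obtain ⟨j, hj, hne⟩ := fv_lower e he (a.testBit 0) (c.testBit 0) (b a ^^ b (a + 1))
  apply hne
  have h1 := h (s + j) (by omega)
  have e1 : H + (s + j + 1) = 16 * a + e + (j + 1) := by omega
  have e2 : w - (s + j + 1) = 16 * c + 15 - (j + 1) := by omega
  have e3 : H + (s + j) = 16 * a + e + j := by omega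
  have e4 : w - (s + j) = 16 * c + 15 - j := by omega
  rw [e1, e2, e3, e4, fv_spec a c e (j + 1) he (by omega), fv_spec a c e j he (by omega)] at h1
  revert h1
  cases (b a ^^ b c) <;> simp

/-- a long run in an upper half -/
theorem run_upper {H w : ℕ} (hw : 30 ≤ w)
    (h : ∀ j < 30, ((b (H + (j + 1)) ^^ b (w - (j + 1))) ^^ (H + (j + 1)).testBit 0) =
      ((b (H + j) ^^ b (w - j)) ^^ (H + j).testBit 0)) : (H + w) % 4 = 3 := by
  obtain ⟨s, hs, c, hc⟩ : ∃ s ≤ 15, ∃ c, w - s = 16 * c + 15 := ⟨(w - 15) % 16, by omega, (w - 15) / 16, by omega⟩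
  obtain ⟨a, e, he, hae⟩ : ∃ a e, e < 16 ∧ H + s = 16 * a + e := ⟨(H + s) / 16, (H + s) % 16, by omega, by omega⟩
  rcases fv_upper e he (a.testBit 0) (c.testBit 0) (b a ^^ b (a + 1)) with h4 | ⟨j, hj, hne⟩
  · omega
  · exfalso
    apply hne
    have h1 := h (s + j) (by omega)
    have e1 : H + (s + j + 1) = 16 * a + e + (j + 1) := by omega
    have e2 : w - (s + j + 1) = 16 * c + 15 - (j + 1) := by omega
    have e3 : H + (s + j) = 16 * a + e + j := by omega
    have e4 : w - (s + j) = 16 * c + 15 - j := by omega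
    have p1 : (16 * a + e + (j + 1)).testBit 0 = (e + (j + 1)).testBit 0 := by
      have : 16 * a + e + (j + 1) = 2 * (8 * a) + (e + (j + 1)) := by ring
      rw [this, testBit_zero_add_even]
    have p2 : (16 * a + e + j).testBit 0 = (e + j).testBit 0 := by
      have : 16 * a + e + j = 2 * (8 * a) + (e + j) := by ring
      rw [this, testBit_zero_add_even]
    rw [e1, e2, e3, e4, fv_spec a c e (j + 1) he (by omega), fv_spec a c e j he (by omega), p1, p2] at h1
    revert h1
    cases (b a ^^ b c) <;> simp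

theorem b_one : b 1 = false := by
  have h1 := b_two_mul_add_one 0
  simpa [b_zero] using h1

theorem b_two : b 2 = false := by rw [show 2 = 2 * 1 by norm_num, b_two_mul, b_one]

theorem b_pow_two (K : ℕ) : b (2 ^ K) = false := by
  induction K with
  | zero => simpa using b_one
  | succ K ih => rw [pow_succ, Nat.mul_comm, b_two_mul, ih]

theorem b_pred_pow (K : ℕ) : b (2 ^ (K + 1) - 1) = K.testBit 0 := by
  have := b_reflect K 0 (by positivity)
  simpa [b_zero] using this

/-- the upper bound for `d = 2^k - 1`, `k = K + 1 ≥ 7` -/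
theorem mersenne_upper {K : ℕ} (hK : 6 ≤ K) :
    NP (2 ^ (K + 1) - 1) (2 ^ K + 1 + (if K % 2 = 0 then 2 else 0)) := by
  intro n hc
  have hWH : 2 ^ (K + 1) = 2 * 2 ^ K := by rw [pow_succ]; ring
  obtain ⟨c4, hc4⟩ : ∃ c, 2 ^ K = 64 * c := by
    obtain ⟨j, rfl⟩ : ∃ j, K = j + 6 := ⟨K - 6, by omega⟩
    exact ⟨2 ^ j, by rw [pow_add]; ring⟩
  have hHpos : 0 < 2 ^ K := by positivity
  set W := 2 ^ (K + 1) with hW
  set h := 2 ^ K with hh
  have h64 : 64 ≤ h := by omega
  have hWpos : 0 < W := by positivity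
  set H := n / W with hH
  set w := n % W with hw
  have hn : n = W * H + w := (Nat.div_add_mod n W).symm
  have hwlt : w < W := Nat.mod_lt _ hWpos
  clear_value H w
  clear hH hw
  -- terms in a segment
  have seg : ∀ (n' H' w' j : ℕ), n' = W * H' + w' → j ≤ w' → n' + j * (W - 1) = W * (H' + j) + (w' - j) := by
    intro n' H' w' j hn' hj
    have e : j * (W - 1) + j = W * j := by
      have : W - 1 + 1 = W := by omega
      calc j * (W - 1) + j = j * (W - 1 + 1) := by ring
        _ = W * j := by rw [this]; ring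
    rw [Nat.mul_add, hn']
    omega
  have vL : ∀ H' w', w' < h → b (W * H' + w') = (b H' ^^ b w') := by
    intro H' w' hw'
    rw [hW, b_decomp K H' w' (by rw [← hW]; omega), ← hh]
    have : decide (h ≤ w') = false := by rw [decide_eq_false_iff_not]; omega
    rw [this, Bool.and_false, Bool.xor_false]
  have vU : ∀ H' w', h ≤ w' → w' < W → b (W * H' + w') = ((b H' ^^ b w') ^^ H'.testBit 0) := by
    intro H' w' hw' hw2
    rw [hW, b_decomp K H' w' (by rw [← hW]; omega), ← hh]
    have : decide (h ≤ w') = true := by rw [decide_eq_true_iff]; omega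
    rw [this, Bool.and_true]
  -- reformulate the hypothesis at an offset
  have hoff : ∀ s j, s + j < h + 1 → b (n + s * (W - 1) + (j + 1) * (W - 1)) = b (n + s * (W - 1) + j * (W - 1)) := by
    intro s j hsj
    have := hc (s + j) (by split_ifs <;> omega)
    have e1 : n + s * (W - 1) + (j + 1) * (W - 1) = n + (s + j + 1) * (W - 1) := by ring
    have e2 : n + s * (W - 1) + j * (W - 1) = n + (s + j) * (W - 1) := by ring
    rw [e1, e2]; exact this
  -- a lower segment of 31 terms is impossible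
  have noLower : ∀ s H' w', n + s * (W - 1) = W * H' + w' → w' < h → 30 ≤ w' → s + 30 ≤ h + 1 → False := by
    intro s H' w' hs hw1 hw2 hs2
    apply run_lower (H := H') hw2
    intro j hj
    have h1 := hoff s j (by omega)
    rw [seg _ H' w' (j + 1) hs (by omega), seg _ H' w' j hs (by omega), vL _ _ (by omega), vL _ _ (by omega)] at h1
    exact h1
  have upper3 : ∀ s H' w', n + s * (W - 1) = W * H' + w' → h + 30 ≤ w' → w' < W → s + 30 ≤ h + 1 → (H' + w') % 4 = 3 := by
    intro s H' w' hs hw1 hw2 hs2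
    apply run_upper (H := H') (by omega)
    intro j hj
    have h1 := hoff s j (by omega)
    rw [seg _ H' w' (j + 1) hs (by omega), seg _ H' w' j hs (by omega), vU _ _ (by omega) (by omega), vU _ _ (by omega) (by omega)] at h1
    exact h1
  -- the two last terms after an upper half
  have after : ∀ s H', n + s * (W - 1) = W * H' + (h - 1) → H' % 4 = 0 →
      b (n + s * (W - 1) + 1 * (W - 1)) = b (n + s * (W - 1)) → False := by
    intro s H' hs hH' heq
    rw [seg _ H' (h - 1) 1 hs (by omega), hs, vL _ _ (by omega), vL _ _ (by omega)] at heq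
    obtain ⟨z, hz⟩ : ∃ z, H' = 4 * z := ⟨H' / 4, by omega⟩
    obtain ⟨y, hy⟩ : ∃ y, h - 1 = 4 * y + 3 := ⟨(h - 1) / 4, by omega⟩
    have h1 := der0 z
    have h2 := der2 y
    have e1 : h - 1 - 1 = 4 * y + 2 := by omega
    rw [e1, hy, hz] at heq
    revert heq h1 h2
    cases b (4 * z) <;> cases b (4 * z + 1) <;> cases b (4 * y + 2) <;> cases b (4 * y + 3) <;> simp
  have hn0 : n + 0 * (W - 1) = W * H + w := by rw [Nat.zero_mul, Nat.add_zero]; exact hn
  rcases Nat.lt_or_ge w h with hlow | hup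
  · -- starts in a lower half
    rcases Nat.lt_or_ge w 30 with h30 | h30
    · -- index `w` is the term `(H + w, 0)`; next is `(H + w, W - 1)`
      have t0 : n + w * (W - 1) = W * (H + w) + 0 := by
        have := seg n H w w hn le_rfl
        simpa using this
      have t1 : n + (w + 1) * (W - 1) = W * (H + w) + (W - 1) := by
        have : n + (w + 1) * (W - 1) = (n + w * (W - 1)) + (W - 1) := by ring
        rw [this, t0]; omega
      have hσ := upper3 (w + 1) (H + w) (W - 1) t1 (by omega) (by omega) (by omega)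
      have hH1 : (H + w) % 4 = 0 := by omega
      -- compare index w and w+1
      have e1 := hoff w 0 (by omega)
      have e1' : b (n + (w + 1) * (W - 1)) = b (n + w * (W - 1)) := by
        have a1 : n + w * (W - 1) + (0 + 1) * (W - 1) = n + (w + 1) * (W - 1) := by ring
        have a2 : n + w * (W - 1) + 0 * (W - 1) = n + w * (W - 1) := by ring
        rw [a1, a2] at e1; exact e1
      rw [t1, t0, vU _ _ (by omega) (by omega), vL _ _ hHpos, b_zero, hW, b_pred_pow K] at e1'
      have hodd : (H + w).testBit 0 = false := by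
        rw [Nat.testBit_zero]; simp; omega
      rw [hodd] at e1'
      have hKe : K.testBit 0 = false := by
        revert e1'
        cases b (H + w) <;> cases K.testBit 0 <;> simp
      have hKev : K % 2 = 0 := by
        rw [Nat.testBit_zero] at hKe
        simp at hKe; omega
      rw [if_pos hKev] at hc
      -- w ≤ 1
      rcases Nat.lt_or_ge w 2 with hw2 | hw2
      · -- after the upper half
        have t2 : n + (w + 1 + h) * (W - 1) = W * (H + w + h) + (h - 1) := by
          have := seg (n + (w + 1) * (W - 1)) (H + w) (W - 1) h t1 (by omega)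
          have a1 : n + (w + 1) * (W - 1) + h * (W - 1) = n + (w + 1 + h) * (W - 1) := by ring
          rw [a1] at this
          rw [this]; congr 1; omega
        apply after (w + 1 + h) (H + w + h) t2 (by omega)
        have := hc (w + 1 + h) (by omega)
        have a1 : n + (w + 1 + h) * (W - 1) + 1 * (W - 1) = n + (w + 1 + h + 1) * (W - 1) := by ring
        rw [a1]; exact this
      · -- terms w-2, w-1
        have t3 : n + (w - 1) * (W - 1) = W * (H + (w - 1)) + 1 := by
          have := seg n H w (w - 1) hn (by omega)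
          rw [this]; congr 1; omega
        have t4 : n + (w - 2) * (W - 1) = W * (H + (w - 2)) + 2 := by
          have := seg n H w (w - 2) hn (by omega)
          rw [this]; congr 1; omega
        have h1 := hc (w - 2) (by omega)
        rw [show w - 2 + 1 = w - 1 by omega, t3, t4, vL _ _ (by omega), vL _ _ (by omega), b_one, b_two] at h1
        obtain ⟨z, hz⟩ : ∃ z, H + w = 4 * z + 4 := ⟨(H + w) / 4 - 1, by omega⟩
        have a1 : H + (w - 1) = 4 * z + 3 := by omega
        have a2 : H + (w - 2) = 4 * z + 2 := by omega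
        have h2 := der2 z
        rw [a1, a2] at h1
        revert h1 h2
        cases b (4 * z + 2) <;> cases b (4 * z + 3) <;> simp
    · exact noLower 0 H w hn0 hlow h30 (by omega)
  · -- starts in an upper half
    rcases Nat.lt_or_ge w (h + 30) with h30 | h30
    · -- the lower segment starts at index w - h + 1
      have t2 : n + (w - h + 1) * (W - 1) = W * (H + (w - h + 1)) + (h - 1) := by
        have := seg n H w (w - h + 1) hn (by omega)
        rw [this]; congr 1; omega
      exact noLower _ _ _ t2 (by omega) (by omega) (by omega)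
    · have hσ := upper3 0 H w hn0 h30 hwlt (by omega)
      have t2 : n + (w - h + 1) * (W - 1) = W * (H + (w - h + 1)) + (h - 1) := by
        have := seg n H w (w - h + 1) hn (by omega)
        rw [this]; congr 1; omega
      apply after (w - h + 1) (H + (w - h + 1)) t2 (by omega)
      have := hoff (w - h + 1) 0 (by omega)
      have a1 : n + (w - h + 1) * (W - 1) + (0 + 1) * (W - 1) = n + (w - h + 1) * (W - 1) + 1 * (W - 1) := by ring
      have a2 : n + (w - h + 1) * (W - 1) + 0 * (W - 1) = n + (w - h + 1) * (W - 1) := by ring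
      rw [a1, a2] at this
      exact this

/-! ### direct checks -/

theorem direct2 (h d j m : ℕ) (hd : d ≤ 2 ^ (h + 1))
    (hfull : (orRot (2 ^ (h + 2)) d j (Zm h d) |||
      rot (2 ^ (h + 2)) ((m * d) % 2 ^ (h + 2)) (orRot (2 ^ (h + 2)) d j (Zm h d))) = 2 ^ 2 ^ (h + 2) - 1) :
    NP d (2 ^ j + m) := by
  intro n hc
  have hN : 0 < 2 ^ (h + 2) := by positivity
  have hg : n % 2 ^ (h + 2) < 2 ^ (h + 2) := Nat.mod_lt _ hN
  have hbit : (orRot (2 ^ (h + 2)) d j (Zm h d) |||
      rot (2 ^ (h + 2)) ((m * d) % 2 ^ (h + 2)) (orRot (2 ^ (h + 2)) d j (Zm h d))).testBit (n % 2 ^ (h + 2)) = true := by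
    rw [hfull, Nat.testBit_two_pow_sub_one]
    simpa using hg
  have hv : ∃ v < 2 ^ j + m, (Zm h d).testBit ((n % 2 ^ (h + 2) + v * d) % 2 ^ (h + 2)) = true := by
    rw [Nat.testBit_or, testBit_rot (orRot_lt _ _ _ _ (Zm_lt h d)) (Nat.mod_lt _ hN).le hg, Bool.or_eq_true] at hbit
    rcases hbit with hb | hb
    · obtain ⟨v, hv, hz⟩ := testBit_orRot (Zm_lt h d) hg hb
      exact ⟨v, by omega, hz⟩
    · obtain ⟨v, hv, hz⟩ := testBit_orRot (Zm_lt h d) (Nat.mod_lt _ hN) hb
      refine ⟨v + m, by omega, ?_⟩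
      have e : ((n % 2 ^ (h + 2) + m * d % 2 ^ (h + 2)) % 2 ^ (h + 2) + v * d) % 2 ^ (h + 2) =
          (n % 2 ^ (h + 2) + (v + m) * d) % 2 ^ (h + 2) := by
        rw [Nat.mod_add_mod, show n % 2 ^ (h + 2) + m * d % 2 ^ (h + 2) + v * d =
          (n % 2 ^ (h + 2) + v * d) + m * d % 2 ^ (h + 2) by ring, Nat.add_mod_mod]
        congr 1
        ring
      rw [← hz, e]
  obtain ⟨v, hv, hz⟩ := hv
  have e : (n % 2 ^ (h + 2) + v * d) % 2 ^ (h + 2) = (n + v * d) % 2 ^ (h + 2) := Nat.mod_add_mod _ _ _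
  rw [e] at hz
  set a := (n + v * d) % 2 ^ (h + 2) with ha
  have halt : a < 2 ^ (h + 2) := Nat.mod_lt _ hN
  have e2 : 2 * 2 ^ (h + 1) = 2 ^ (h + 2) := by rw [pow_succ 2 (h + 1)]; ring
  unfold Zm at hz
  rw [Nat.testBit_and, Nat.testBit_xor, Nat.testBit_shiftRight, testBit_Um (by omega), Bool.and_eq_true,
    decide_eq_true_iff] at hz
  obtain ⟨hz1, hz2⟩ := hz
  have e3 : 2 ^ (h + 3) = 2 * 2 ^ (h + 2) := by rw [pow_succ 2 (h + 2)]; ring
  rw [testBit_Rt _ _ (by omega), testBit_Rt _ _ (by omega)] at hz1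
  have e4 : a % 2 ^ (h + 1) = (n + v * d) % 2 ^ (h + 1) := by
    rw [ha]; exact Nat.mod_mod_of_dvd _ (pow_dvd_pow 2 (by omega))
  rw [e4] at hz2
  have hl := local_b h (n + v * d) d hz2
  rw [← ha] at hl
  have := hc v hv
  have e5 : n + (v + 1) * d = n + v * d + d := by ring
  rw [e5] at this
  rw [this, Bool.xor_self] at hl
  rw [Nat.add_comm d a, Bool.xor_comm] at hz1
  rw [← hl] at hz1
  exact absurd hz1 (by decide)

/-- the check of a window of `2^j + m` steps modulo `2^(h+2)` -/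
def dchk (h j m d : ℕ) : Bool :=
  (orRot (2 ^ (h + 2)) d j (Zm h d) |||
      rot (2 ^ (h + 2)) ((m * d) % 2 ^ (h + 2)) (orRot (2 ^ (h + 2)) d j (Zm h d))) == 2 ^ 2 ^ (h + 2) - 1

theorem dchk_sound {h j m d : ℕ} (hd : d ≤ 2 ^ (h + 1)) (hc : dchk h j m d = true) : NP d (2 ^ j + m) :=
  direct2 h d j m hd (by simpa [dchk] using hc)

theorem dir4 : allLt (fun i => dchk 5 4 0 (2*i+1)) 15 = true := by decide +kernel
theorem dir5 : allLt (fun i => dchk 6 5 0 (2*i+33)) 15 = true := by decide +kernel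
theorem dir6 : allLt (fun i => dchk 7 6 0 (2*i+65)) 31 = true := by decide +kernel
theorem dir7 : allLt (fun i => dchk 8 7 0 (2*i+129)) 63 = true := by decide +kernel
theorem dir8 : allLt (fun i => dchk 9 8 0 (2*i+257)) 127 = true := by decide +kernel
theorem dirM5 : dchk 7 4 3 31 = true := by decide +kernel
theorem dirM6 : dchk 8 5 1 63 = true := by decide +kernel

theorem mersenne_upper' {K : ℕ} (hK : 4 ≤ K) :
    NP (2 ^ (K + 1) - 1) (2 ^ K + 1 + (if K % 2 = 0 then 2 else 0)) := by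
  rcases Nat.lt_or_ge K 6 with h | h
  · obtain rfl | rfl : K = 4 ∨ K = 5 := by omega
    · exact dchk_sound (h := 7) (j := 4) (m := 3) (d := 31) (by norm_num) dirM5
    · exact dchk_sound (h := 8) (j := 5) (m := 1) (d := 63) (by norm_num) dirM6
  · exact mersenne_upper h

/-- odd differences between two powers of two -/
theorem odd_bound {m d : ℕ} (hm : 5 ≤ m) (hd : d % 2 = 1) (h1 : 2 ^ m < d) (h2 : d + 1 < 2 ^ (m + 1)) :
    NP d (2 ^ m) := by
  rcases Nat.lt_or_ge m 9 with h | h
  · obtain rfl | rfl | rfl | rfl : m = 5 ∨ m = 6 ∨ m = 7 ∨ m = 8 := by omega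
    · norm_num at h1 h2
      have := allLt_spec dir5 (i := (d - 33) / 2) (by omega)
      rw [show 2 * ((d - 33) / 2) + 33 = d by omega] at this
      exact dchk_sound (by norm_num; omega) this
    · norm_num at h1 h2
      have := allLt_spec dir6 (i := (d - 65) / 2) (by omega)
      rw [show 2 * ((d - 65) / 2) + 65 = d by omega] at this
      exact dchk_sound (by norm_num; omega) this
    · norm_num at h1 h2
      have := allLt_spec dir7 (i := (d - 129) / 2) (by omega)
      rw [show 2 * ((d - 129) / 2) + 129 = d by omega] at this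
      exact dchk_sound (by norm_num; omega) this
    · norm_num at h1 h2
      have := allLt_spec dir8 (i := (d - 257) / 2) (by omega)
      rw [show 2 * ((d - 257) / 2) + 257 = d by omega] at this
      exact dchk_sound (by norm_num; omega) this
  · obtain ⟨K, rfl⟩ : ∃ K, m = K + 4 := ⟨m - 4, by omega⟩
    have e1 : 2 ^ (K + 4) = 8 * 2 ^ (K + 1) := by rw [pow_add, pow_add]; ring
    have e2 : 2 ^ (K + 4 + 1) = 16 * 2 ^ (K + 1) := by rw [pow_add, pow_add 2 K 4, pow_add 2 K 1]; ring
    rw [e1] at h1 ⊢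
    rw [e2] at h2
    exact large (by omega) hd h1 h2

theorem odd_le {k d : ℕ} (hk : 5 ≤ k) (hd : d % 2 = 1) (h : d + 2 ≤ 2 ^ k) : NP d (2 ^ (k - 1)) := by
  induction k, hk using Nat.le_induction with
  | base =>
    norm_num at h
    have := allLt_spec dir4 (i := d / 2) (by omega)
    rw [show 2 * (d / 2) + 1 = d by omega] at this
    exact dchk_sound (by norm_num; omega) this
  | succ k hk ih =>
    have e1 : 2 ^ (k + 1) = 2 * 2 ^ k := by rw [pow_succ]; ring
    have e2 : 2 ^ k = 2 * 2 ^ (k - 1) := by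
      obtain ⟨j, rfl⟩ : ∃ j, k = j + 1 := ⟨k - 1, by omega⟩
      rw [pow_succ, Nat.add_sub_cancel]; ring
    have e3 : 16 ≤ 2 ^ (k - 1) := by
      calc 16 = 2 ^ 4 := by norm_num
        _ ≤ 2 ^ (k - 1) := Nat.pow_le_pow_right (by norm_num) (by omega)
    rw [Nat.add_sub_cancel]
    rcases Nat.lt_trichotomy (d + 1) (2 ^ k) with h1 | h1 | h1
    · exact (ih (by omega)).mono (by omega)
    · -- d = 2^k - 1
      obtain ⟨j, rfl⟩ : ∃ j, k = j + 1 := ⟨k - 1, by omega⟩
      have hd' : d = 2 ^ (j + 1) - 1 := by omega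
      rw [hd']
      rw [Nat.add_sub_cancel] at e2 e3
      exact (mersenne_upper' (by omega)).mono (by split_ifs <;> omega)
    · have hne : d ≠ 2 ^ k := by
        intro hc
        rw [hc, e2] at hd
        omega
      have hne2 : d + 1 ≠ 2 ^ (k + 1) := by omega
      exact odd_bound hk hd (by omega) (by omega)

theorem all_le {k : ℕ} (hk : 5 ≤ k) (d : ℕ) (hd : 1 ≤ d) (h : d + 2 ≤ 2 ^ k) : NP d (2 ^ (k - 1)) := by
  induction d using Nat.strong_induction_on with
  | _ d ih =>
    rcases Nat.mod_two_eq_zero_or_one d with h2 | h2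
    · obtain ⟨c, rfl⟩ : ∃ c, d = 2 * c := ⟨d / 2, by omega⟩
      exact (ih c (by omega) (by omega) (by omega)).double
    · exact odd_le hk h2 h

/-! ### the lower bound for `d = 2^k - 1` -/

/-- value on the upper half run -/
theorem lower_terms (K j : ℕ) (hj : j < 2 ^ K) :
    b (2 ^ (K + 1) * 2 ^ (K + 1) + (2 ^ (K + 1) - 1) + j * (2 ^ (K + 1) - 1)) = K.testBit 0 := by
  have hWH : 2 ^ (K + 1) = 2 * 2 ^ K := by rw [pow_succ]; ring
  have hpos : 0 < 2 ^ K := by positivity
  have e : 2 ^ (K + 1) * 2 ^ (K + 1) + (2 ^ (K + 1) - 1) + j * (2 ^ (K + 1) - 1) =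
      2 ^ (K + 1) * (2 ^ (K + 1) * 1 + j) + (2 ^ (K + 1) - 1 - j) := by
    have e1 : j * (2 ^ (K + 1) - 1) + j = 2 ^ (K + 1) * j := by
      have : 2 ^ (K + 1) - 1 + 1 = 2 ^ (K + 1) := by omega
      calc j * (2 ^ (K + 1) - 1) + j = j * (2 ^ (K + 1) - 1 + 1) := by ring
        _ = 2 ^ (K + 1) * j := by rw [this]; ring
    rw [Nat.mul_add, Nat.mul_one]
    omega
  rw [e, b_decomp K _ _ (by omega), b_decomp K 1 j (by omega), b_reflect K j hj, b_one]
  have h1 : decide (2 ^ K ≤ j) = false := by rw [decide_eq_false_iff_not]; omega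
  have h2 : decide (2 ^ K ≤ 2 ^ (K + 1) - 1 - j) = true := by rw [decide_eq_true_iff]; omega
  have h3 : (2 ^ (K + 1) * 1 + j).testBit 0 = j.testBit 0 := by
    rw [hWH, Nat.mul_one, testBit_zero_add_even]
  rw [h1, h2, h3]
  cases b j <;> cases j.testBit 0 <;> cases K.testBit 0 <;> cases Nat.testBit 1 0 <;> rfl

theorem lower_last (K : ℕ) (hK : 1 ≤ K) :
    b (2 ^ (K + 1) * 2 ^ (K + 1) + (2 ^ (K + 1) - 1) + 2 ^ K * (2 ^ (K + 1) - 1)) = K.testBit 0 := by
  have hWH : 2 ^ (K + 1) = 2 * 2 ^ K := by rw [pow_succ]; ring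
  have hpos : 0 < 2 ^ K := by positivity
  have e : 2 ^ (K + 1) * 2 ^ (K + 1) + (2 ^ (K + 1) - 1) + 2 ^ K * (2 ^ (K + 1) - 1) =
      2 ^ (K + 1) * (2 ^ (K + 1) * 1 + 2 ^ K) + (2 ^ K - 1) := by
    have e1 : 2 ^ K * (2 ^ (K + 1) - 1) + 2 ^ K = 2 ^ (K + 1) * 2 ^ K := by
      have : 2 ^ (K + 1) - 1 + 1 = 2 ^ (K + 1) := by omega
      calc 2 ^ K * (2 ^ (K + 1) - 1) + 2 ^ K = 2 ^ K * (2 ^ (K + 1) - 1 + 1) := by ring
        _ = 2 ^ (K + 1) * 2 ^ K := by rw [this]; ring
    rw [Nat.mul_add, Nat.mul_one]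
    omega
  rw [e, b_decomp K _ _ (by omega), b_decomp K 1 _ (by omega), b_one, b_pow_two]
  obtain ⟨j, rfl⟩ : ∃ j, K = j + 1 := ⟨K - 1, by omega⟩
  rw [b_pred_pow j, testBit_zero_succ j]
  have h1 : decide (2 ^ (j + 1) ≤ 2 ^ (j + 1)) = true := by simp
  have h2 : decide (2 ^ (j + 1) ≤ 2 ^ (j + 1) - 1) = false := by rw [decide_eq_false_iff_not]; omega
  have h3 : Nat.testBit 1 0 = true := rfl
  rw [h1, h2, h3]
  cases j.testBit 0 <;> cases (2 ^ (j + 1 + 1) * 1 + 2 ^ (j + 1)).testBit 0 <;> rfl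

theorem mono_even {K : ℕ} (hK : 1 ≤ K) :
    Mono (2 ^ (K + 1) * 2 ^ (K + 1) + (2 ^ (K + 1) - 1)) (2 ^ (K + 1) - 1) (2 ^ K + 1) := by
  have hpos : 0 < 2 ^ K := by positivity
  have h0 := lower_terms K 0 hpos
  rw [Nat.zero_mul, Nat.add_zero] at h0
  intro j hj
  rw [rs_eq_iff, h0]
  rcases Nat.lt_or_ge j (2 ^ K) with h | h
  · exact lower_terms K j h
  · have : j = 2 ^ K := by omega
    rw [this]; exact lower_last K hK

theorem mono_odd {K : ℕ} (hK : 1 ≤ K) (hK2 : K % 2 = 0) :
    Mono (2 ^ (K + 1) * (2 ^ (K + 1) - 1) + 1) (2 ^ (K + 1) - 1) (2 ^ K + 3) := by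
  have hWH : 2 ^ (K + 1) = 2 * 2 ^ K := by rw [pow_succ]; ring
  have hpos : 0 < 2 ^ K := by positivity
  have hKf : K.testBit 0 = false := by rw [Nat.testBit_zero]; simp; omega
  have h2 : 2 ≤ 2 ^ K := by
    calc 2 = 2 ^ 1 := by norm_num
      _ ≤ 2 ^ K := Nat.pow_le_pow_right (by norm_num) hK
  have hsq : 2 ^ (K + 1) * (2 ^ (K + 1) - 1) + 2 ^ (K + 1) = 2 ^ (K + 1) * 2 ^ (K + 1) := by
    have : 2 ^ (K + 1) - 1 + 1 = 2 ^ (K + 1) := by omega
    calc 2 ^ (K + 1) * (2 ^ (K + 1) - 1) + 2 ^ (K + 1) = 2 ^ (K + 1) * (2 ^ (K + 1) - 1 + 1) := by ring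
      _ = 2 ^ (K + 1) * 2 ^ (K + 1) := by rw [this]
  have t0 : b (2 ^ (K + 1) * (2 ^ (K + 1) - 1) + 1) = false := by
    rw [b_decomp K _ _ (by omega), b_pred_pow K, b_one, hKf]
    have : decide (2 ^ K ≤ 1) = false := by rw [decide_eq_false_iff_not]; omega
    rw [this]; cases (2 ^ (K + 1) - 1).testBit 0 <;> rfl
  have t1 : b (2 ^ (K + 1) * (2 ^ (K + 1) - 1) + 1 + 1 * (2 ^ (K + 1) - 1)) = false := by
    have e : 2 ^ (K + 1) * (2 ^ (K + 1) - 1) + 1 + 1 * (2 ^ (K + 1) - 1) = 2 ^ (K + 1) * 2 ^ (K + 1) := by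
      omega
    rw [e, ← pow_add, b_pow_two]
  intro j hj
  rw [rs_eq_iff, t0]
  rcases Nat.lt_or_ge j 2 with h | h
  · obtain rfl | rfl : j = 0 ∨ j = 1 := by omega
    · rw [Nat.zero_mul, Nat.add_zero]; exact t0
    · exact t1
  · have e : 2 ^ (K + 1) * (2 ^ (K + 1) - 1) + 1 + j * (2 ^ (K + 1) - 1) =
        2 ^ (K + 1) * 2 ^ (K + 1) + (2 ^ (K + 1) - 1) + (j - 2) * (2 ^ (K + 1) - 1) := by
      obtain ⟨i, rfl⟩ : ∃ i, j = i + 2 := ⟨j - 2, by omega⟩
      rw [Nat.add_sub_cancel, Nat.add_mul]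
      omega
    rw [e]
    rcases Nat.lt_or_ge (j - 2) (2 ^ K) with h3 | h3
    · rw [lower_terms K _ h3, hKf]
    · have : j - 2 = 2 ^ K := by omega
      rw [this, lower_last K hK, hKf]

/-! ### the result -/

theorem Mono.le_of_NP {n d l m : ℕ} (h : NP d m) (hl : Mono n d l) : l ≤ m := by
  by_contra hc
  apply h n
  intro i hi
  have h1 := hl (i + 1) (by omega)
  have h2 := hl i (by omega)
  rw [← rs_eq_iff, h1, h2]

theorem A_le_of_NP {d m : ℕ} (h : NP d m) : A d ≤ (m : ℕ∞) := by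
  unfold A lenAt
  refine iSup_le fun n => iSup_le fun l => iSup_le fun hl => ?_
  exact_mod_cast Mono.le_of_NP h hl

theorem le_A {n d l : ℕ} (h : Mono n d l) : (l : ℕ∞) ≤ A d := by
  unfold A lenAt
  exact le_iSup_of_le n (le_iSup_of_le l (le_iSup_of_le h le_rfl))

/-- **Main theorem.** For every `k ≥ 5`, `A_r(d) ≤ 2^(k-1)` for all `1 ≤ d ≤ 2^k - 2`, and
`A_r(2^k - 1)` equals `2^(k-1) + 1` if `k` is even and `2^(k-1) + 3` if `k` is odd. -/
theorem result (k : ℕ) (hk : 5 ≤ k) :
    (∀ d : ℕ, 1 ≤ d → d ≤ 2 ^ k - 2 → A d ≤ 2 ^ (k - 1)) ∧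
    (Even k → A (2 ^ k - 1) = 2 ^ (k - 1) + 1) ∧
    (Odd k → A (2 ^ k - 1) = 2 ^ (k - 1) + 3) := by
  have h2k : 2 ≤ 2 ^ k := by
    calc 2 = 2 ^ 1 := by norm_num
      _ ≤ 2 ^ k := Nat.pow_le_pow_right (by norm_num) (by omega)
  refine ⟨?_, ?_, ?_⟩
  · intro d hd hd2
    have := A_le_of_NP (all_le hk d hd (by omega))
    exact_mod_cast this
  · intro hev
    obtain ⟨K, rfl⟩ : ∃ K, k = K + 1 := ⟨k - 1, by omega⟩
    have hK2 : K % 2 = 1 := by
      have := Nat.even_iff.mp hev
      omega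
    rw [Nat.add_sub_cancel]
    have up := A_le_of_NP (mersenne_upper' (K := K) (by omega))
    rw [if_neg (by omega)] at up
    have lo := le_A (mono_even (K := K) (by omega))
    apply le_antisymm
    · exact_mod_cast up
    · exact_mod_cast lo
  · intro hodd
    obtain ⟨K, rfl⟩ : ∃ K, k = K + 1 := ⟨k - 1, by omega⟩
    have hK2 : K % 2 = 0 := by
      have := Nat.odd_iff.mp hodd
      omega
    rw [Nat.add_sub_cancel]
    have up := A_le_of_NP (mersenne_upper' (K := K) (by omega))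
    rw [if_pos hK2] at up
    have lo := le_A (mono_odd (K := K) (by omega) hK2)
    apply le_antisymm
    · exact_mod_cast up
    · exact_mod_cast lo

end Pool.Agent.Results.MP_fa909a_co.LongProgressions
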